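import Pool.Agent.Helper42.NS.Tow
import Pool.Agent.Helper52.KP.Agr
import Pool.Agent.Helper52.SL.Ext

/-! ST2_BACK, part 2: a variable which is known to the label on an event is trivial in the space over the label,
restricted to any smaller event. -/

set_option autoImplicit false

namespace Pool.Agent.Helper52.BK

open Finset Filter Topology Pool.Agent.Helper69.RK Pool.Agent.Helper31.EC Pool.Agent.Helper31.EC.Sp
open Pool.Agent.Helper40.EL Pool.Agent.Helper42.NS Pool.Agent.Helper52.KP Pool.Agent.Helper52.SL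

noncomputable section

theorem res_res {Ω : Type} (μ : Ω → ℝ) (c : ℝ) (E E' : Ω → Prop) :
    res (fun ω => c * res μ E ω) E' = fun ω => c * res μ (fun ω => E ω ∧ E' ω) ω := by
  funext ω
  by_cases h2 : E' ω
  · rw [res_pos _ _ _ h2]
    by_cases h3 : E ω
    · rw [res_pos _ _ _ h3, res_pos μ (fun ω => E ω ∧ E' ω) ω ⟨h3, h2⟩]
    · rw [res_neg _ _ _ h3, res_neg μ (fun ω => E ω ∧ E' ω) ω (fun h => h3 h.1)]
  · rw [res_neg _ _ _ h2, res_neg μ (fun ω => E ω ∧ E' ω) ω (fun h => h2 h.2), mul_zero]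

/-- restriction to an event inside an event -/
theorem restμ_rest (F : FSp) (E E' : F.Ω → Prop) (h : F.pb (fun ω => E ω ∧ E' ω) ≠ 0) :
    (F.rest E).restμ E' = F.restμ (fun ω => E ω ∧ E' ω) := by
  have h0 : F.pb E ≠ 0 := by
    intro hc
    apply h
    apply le_antisymm _ (F.pb_nonneg _)
    rw [← hc]
    exact F.pb_mono fun ω _ h1 => h1.1
  have h2 := pb_rest F E E'
  have h3 : (F.rest E).pb E' ≠ 0 := by
    intro hc
    rw [hc, mul_zero] at h2
    exact h h2.symm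
  have e1 : (F.rest E).restμ E' = fun ω => ((F.rest E).pb E')⁻¹ * res (F.restμ E) E' ω :=
    (F.rest E).restμ_eq E' h3
  rw [e1, F.restμ_eq _ h, F.restμ_eq E h0, res_res, ← h2, mul_inv]
  funext ω
  ring

theorem h_mkF {F : FSp} {μ μ' : F.Ω → ℝ} (hm : μ = μ') (nn : ∀ ω, 0 ≤ μ ω) (ms : mass μ = 1)
    (nn' : ∀ ω, 0 ≤ μ' ω) (ms' : mass μ' = 1) (A B : Setoid F.Ω) :
    h (fc A : FL (mkF F μ nn ms)) (fc B) = h (fc A : FL (mkF F μ' nn' ms')) (fc B) := by
  subst hm
  rfl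

/-- entropies after two restrictions -/
theorem h_rest_rest (F : FSp) (E E' : F.Ω → Prop) (h0 : F.pb (fun ω => E ω ∧ E' ω) ≠ 0) (A B : Setoid F.Ω) :
    h (fc A : FL ((F.rest E).rest E')) (fc B) = h (fc A : FL (F.rest fun ω => E ω ∧ E' ω)) (fc B) :=
  h_mkF (F := F) (restμ_rest F E E' h0) ((F.rest E).rest E').nn ((F.rest E).rest E').ms
    (F.rest fun ω => E ω ∧ E' ω).nn (F.rest fun ω => E ω ∧ E' ω).ms A B

variable {S : Sp}

/-- a variable known to the label on the event `E` is trivial over the label, on every smaller event -/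
theorem io_bot_of_known (l : Lab S) (E R : ∀ k, (l k).T.Ω → Prop)
    (hER : 0 < ul (l.sp.pr fun k ω => E k ω ∧ R k ω)) {α β : ℕ → Type} (cc : ∀ k, (l k).T.Ω → β k)
    (hn : Nul S (fun k => h (fc (Setoid.ker (cc k)) : FL ((l k).T.rest (E k))) ((l k).T.rmap (E k) (l k).v)))
    (X : ∀ k, (l k).T.Ω → α k) (hXc : ∀ k ω ω', cc k ω = cc k ω' → X k ω = X k ω')
    (hX : Bdd (S := (l.ovr 1 one_pos).rest fun k ω => E k ω ∧ R k ω) X) :
    io (S := (l.ovr 1 one_pos).rest fun k ω => E k ω ∧ R k ω) X ≤ ⊥ := by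
  -- positive probability of `R` on `E`
  have hR : 0 < ul ((l.im E).sp.pr R) := by
    have t1 : Tendsto (l.sp.pr fun k ω => E k ω ∧ R k ω) UF (𝓝 (ul (l.sp.pr fun k ω => E k ω ∧ R k ω))) :=
      ul_tendsto (Sp.UB_pr _)
    have t2 : Tendsto ((l.im E).sp.pr R) UF (𝓝 (ul ((l.im E).sp.pr R))) := ul_tendsto (Sp.UB_pr _)
    refine lt_of_lt_of_le hER (le_of_tendsto_of_tendsto t1 t2 (Eventually.of_forall fun k => ?_))
    have h1 := pb_rest (l k).T (E k) (R k)
    have h2 := (l k).T.pb_le_one (E k)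
    have h3 := ((l k).T.rest (E k)).pb_nonneg (R k)
    show (l k).T.pb (fun ω => E k ω ∧ R k ω) ≤ ((l k).T.rest (E k)).pb (R k)
    rw [← h1]
    exact mul_le_of_le_one_left h3 h2
  -- the restricted entropies
  have hX1 : Nul S (fun k => h (fc (Setoid.ker (X k)) : FL ((l k).T.rest (E k))) ((l k).T.rmap (E k) (l k).v)) := by
    refine hn.of_le (Eventually.of_forall fun k => h_nonneg _ _) (Eventually.of_forall fun k => h_mono ?_)
    apply fc_mono
    intro ω ω' hω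
    exact hXc k ω ω' hω
  have hX2 := Lab.nul_rmap (l := l.im E) R hR (fun k => (fc (Setoid.ker (X k)) : FL ((l k).T.rest (E k))))
    (fun k => (l k).T.rmap (E k) (l k).v) hX1
  rw [io_eq hX, ← cl_bot, cl_le]
  show Tendsto (((l.ovr 1 one_pos).rest fun k ω => E k ω ∧ R k ω).rt (fun k => Setoid.ker (X k)) fun _ => ⊤) UF (𝓝 0)
  have hpos : ∀ᶠ k in UF, (l k).T.pb (fun ω => E k ω ∧ R k ω) ≠ 0 := by
    have t1 : Tendsto (l.sp.pr fun k ω => E k ω ∧ R k ω) UF (𝓝 (ul (l.sp.pr fun k ω => E k ω ∧ R k ω))) :=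
      ul_tendsto (Sp.UB_pr _)
    filter_upwards [t1.eventually (lt_mem_nhds hER)] with k hk
    exact hk.ne'
  refine Tendsto.congr' ?_ hX2
  filter_upwards [hpos] with k hk
  have e1 : h (((l k).T.rest (E k)).rmap (R k) (fc (Setoid.ker (X k)) : FL ((l k).T.rest (E k))))
      (((l k).T.rest (E k)).rmap (R k) ((l k).T.rmap (E k) (l k).v)) =
      h (fc (Setoid.ker (X k)) : FL (((l k).T.rest (E k)).rest (R k))) (fc (l k).V) := rfl
  have e2 := h_rest_rest (l k).T (E k) (R k) hk (Setoid.ker (X k)) (l k).V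
  have e3 : ((l.ovr 1 one_pos).rest fun k ω => E k ω ∧ R k ω).rt (fun k => Setoid.ker (X k)) (fun _ => ⊤) k =
      ((l k).T.rest fun ω => E k ω ∧ R k ω).e (Setoid.ker (X k)) (⊤ ⊓ ((l k).V ⊓ (l k).T.Z)) / (1 * (l k).T.n) := rfl
  have e4 : h (fc (Setoid.ker (X k)) : FL ((l k).T.rest fun ω => E k ω ∧ R k ω)) (fc (l k).V) =
      ((l k).T.rest fun ω => E k ω ∧ R k ω).e (Setoid.ker (X k)) ((l k).V ⊓ (l k).T.Z) :=
    h_fc (F := (l k).T.rest fun ω => E k ω ∧ R k ω) (Setoid.ker (X k)) (l k).V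
  rw [e3, top_inf_eq, one_mul, (l k).hn, ← e4]
  exact congrArg (fun x => x / (S.F k).n) (e1.trans e2)

end

end Pool.Agent.Helper52.BK
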