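import Pool.Agent.Helper52.BK.Tam
import Pool.Agent.Helper52.BK.Nll
import Pool.Agent.Helper91.GR.One
import Pool.Agent.Helper91.GR.Def
import Pool.Agent.Helper99.EC.FinC
import Pool.Agent.Helper60.CS.Los
import Pool.Agent.Helper3.LF.Adm

/-! ST2_BACK: from the finite agreement form (an affine sheet over the flat corner of a maximal label, at one stage) to
an exact linear sheet of the window, on an event. -/

set_option autoImplicit false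

namespace Pool.Agent.Helper52.BK

open Finset Filter Topology Pool.Agent.Helper69.RK Pool.Agent.Helper31.EC Pool.Agent.Helper31.EC.Sp
open Pool.Agent.Helper40.EL Pool.Agent.Helper42.NS Pool.Agent.Helper52.KP Pool.Agent.Helper52.SL
open Pool.Agent.Helper91.GR Pool.Agent.Helper99.EC Pool.Agent.Helper60.CS Pool.Agent.Helper97.SL
open Pool.Agent.Helper3.LF (Mon pl pl_zero pl_succ Sub_pow_two sp_Sub sp_dl sp_n typ_sub_le)

noncomputable section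

variable {S : Sp} {m : ℕ}

/-- the coordinates on the space of the label -/
def lt (s : Sys S m) (l : Lab S) (k : ℕ) (ω : (l k).T.Ω) : ℝ := s.t.v k ((l k).p.π ω) 0
def lP (s : Sys S m) (l : Lab S) (j : Fin m) (k : ℕ) (ω : (l k).T.Ω) : ℝ := s.P.v k ((l k).p.π ω) j

/-- the typical conditions of ST2_BACK -/
def TyP (s : Sys S m) (l : Lab S) (i j : Fin m) (c u ζ : ℝ) (tau ph0 ph1 al be ga : ∀ k, (l k).T.Ω → ℝ)
    (q : ∀ k, Fin 2 → (l k).T.Ω → ℝ) (z : ∀ k, (l k).T.Ω → ℝ) (K : ℕ → ℝ) (k : ℕ) (ω : (l k).T.Ω) : Prop :=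
  (q k 0 ω = (lt s l k ω - tau k ω) / S.dl c k ∧
    q k 1 ω = (lP s l j k ω - ph0 k ω - ph1 k ω * (lt s l k ω - tau k ω)) / S.dl (c + u) k ∧
    z k ω = (lP s l i k ω - al k ω - be k ω * lt s l k ω - ga k ω * lP s l j k ω) / S.dl ζ k) ∧
  (|q k 0 ω| ≤ K k ∧ |q k 1 ω| ≤ K k ∧ |z k ω| ≤ K k) ∧ |ph1 k ω| ≤ K k ∧ |be k ω| ≤ K k ∧ |ga k ω| ≤ K k

/-- DATA OF ST2_BACK on the space of the label: box coordinates `q` of the base `(t, y_j)` and the normalised top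
coordinate `z` (an affine sheet `al + be t + ga y_j` of depth `ζ` is subtracted) -/
structure BkD (s : Sys S m) (l : Lab S) (i j : Fin m) (c u ζ : ℝ) where
  tau : ∀ k, (l k).T.Ω → ℝ
  ph0 : ∀ k, (l k).T.Ω → ℝ
  ph1 : ∀ k, (l k).T.Ω → ℝ
  al : ∀ k, (l k).T.Ω → ℝ
  be : ∀ k, (l k).T.Ω → ℝ
  ga : ∀ k, (l k).T.Ω → ℝ
  q : ∀ k, Fin 2 → (l k).T.Ω → ℝ
  z : ∀ k, (l k).T.Ω → ℝ
  K : ℕ → ℝ
  hK : S.Sub K
  hm : ∀ᶠ k in UF, ∀ ω ω', (l k).T.μ ω ≠ 0 → (l k).T.μ ω' ≠ 0 → (l k).V ω ω' → (l k).T.Z ω ω' →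
    tau k ω = tau k ω' ∧ ph0 k ω = ph0 k ω' ∧ ph1 k ω = ph1 k ω' ∧ al k ω = al k ω' ∧ be k ω = be k ω' ∧
      ga k ω = ga k ω'
  ty : Typ (S := l.sp) (TyP s l i j c u ζ tau ph0 ph1 al be ga q z K)

/-- the affine functions of two variables -/
theorem sum_two (c : Mon 2 1 → ℝ) (q : Fin 2 → ℝ) : ∑ a : Mon 2 1, c a * ∏ i, q i ^ (a.1 i : ℕ) =
    c (z0 2 1) + c (m1 0) * q 0 + c (m1 1) * q 1 := by
  rw [sum_mon]
  have h0 : ∏ i, q i ^ ((z0 2 1).1 i : ℕ) = 1 := by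
    apply Finset.prod_eq_one
    intro i _
    rw [z0_val, pow_zero]
  have h1 : ∀ j : Fin 2, ∏ i, q i ^ ((m1 j).1 i : ℕ) = q j := by
    intro j
    rw [Fin.prod_univ_two, m1_val, m1_val]
    rcases Fin.exists_fin_two.mp ⟨j, rfl⟩ with h | h <;> rw [h] <;> simp
  rw [h0, mul_one, Fin.sum_univ_two, h1, h1, add_assoc]

theorem sum_two_abs (q : Fin 2 → ℝ) : ∑ a : Mon 2 1, |∏ i, q i ^ (a.1 i : ℕ)| = 1 + |q 0| + |q 1| := by
  rw [sum_mon]
  have h0 : ∏ i, q i ^ ((z0 2 1).1 i : ℕ) = 1 := by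
    apply Finset.prod_eq_one
    intro i _
    rw [z0_val, pow_zero]
  have h1 : ∀ j : Fin 2, ∏ i, q i ^ ((m1 j).1 i : ℕ) = q j := by
    intro j
    rw [Fin.prod_univ_two, m1_val, m1_val]
    rcases Fin.exists_fin_two.mp ⟨j, rfl⟩ with h | h <;> rw [h] <;> simp
  rw [h0, abs_one, Fin.sum_univ_two, h1, h1, add_assoc]

theorem alg_df {d P a b g t Y C : ℝ} (hd : d ≠ 0) {N : ℝ} (h : N = P - a - b * t - g * Y) :
    P - (a + b * t + g * Y + d * C) = d * (N / d - C) := by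
  rw [mul_sub, mul_div_cancel₀ _ hd, h]
  ring

namespace BkD

variable {s : Sys S m} {l : Lab S} {i j : Fin m} {c u ζ : ℝ} (D : BkD s l i j c u ζ)

/-- the sheet of the coefficients `a0 + a1 q0 + a2 q1` -/
def cf (a0 a1 a2 : ∀ k, (l k).T.Ω → ℝ) (k : ℕ) (ω : (l k).T.Ω) : Cf (m + 1) :=
  (D.al k ω + S.dl ζ k * (a0 k ω - a1 k ω * D.tau k ω / S.dl c k -
      a2 k ω * (D.ph0 k ω - D.ph1 k ω * D.tau k ω) / S.dl (c + u) k),
    fun r => if r = 0 then D.be k ω + S.dl ζ k * (a1 k ω / S.dl c k - a2 k ω * D.ph1 k ω / S.dl (c + u) k)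
      else if r = j.succ then D.ga k ω + S.dl ζ k * (a2 k ω / S.dl (c + u) k) else 0)

theorem aff_cf (a0 a1 a2 : ∀ k, (l k).T.Ω → ℝ) (k : ℕ) (ω : (l k).T.Ω) (a x : Fin m → ℝ) (t : ℝ) :
    aff {0, j.succ} (D.cf a0 a1 a2 k ω) (pl a x t) =
      D.al k ω + D.be k ω * t + D.ga k ω * (a j + t * x j) + S.dl ζ k * (a0 k ω +
        a1 k ω * ((t - D.tau k ω) / S.dl c k) +
        a2 k ω * ((a j + t * x j - D.ph0 k ω - D.ph1 k ω * (t - D.tau k ω)) / S.dl (c + u) k)) := by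
  unfold aff
  rw [Finset.sum_pair (Fin.succ_ne_zero j).symm, pl_zero, pl_succ]
  have e0 : (D.cf a0 a1 a2 k ω).2 0 = D.be k ω + S.dl ζ k * (a1 k ω / S.dl c k -
      a2 k ω * D.ph1 k ω / S.dl (c + u) k) := by
    show (if (0 : Fin (m + 1)) = 0 then D.be k ω + S.dl ζ k * (a1 k ω / S.dl c k - a2 k ω * D.ph1 k ω / S.dl (c + u) k)
      else if (0 : Fin (m + 1)) = j.succ then D.ga k ω + S.dl ζ k * (a2 k ω / S.dl (c + u) k) else 0) = _
    rw [if_pos rfl]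
  have e1 : (D.cf a0 a1 a2 k ω).2 j.succ = D.ga k ω + S.dl ζ k * (a2 k ω / S.dl (c + u) k) := by
    show (if j.succ = 0 then D.be k ω + S.dl ζ k * (a1 k ω / S.dl c k - a2 k ω * D.ph1 k ω / S.dl (c + u) k)
      else if j.succ = j.succ then D.ga k ω + S.dl ζ k * (a2 k ω / S.dl (c + u) k) else 0) = _
    rw [if_neg (Fin.succ_ne_zero j), if_pos rfl]
  have e2 : (D.cf a0 a1 a2 k ω).1 = D.al k ω + S.dl ζ k * (a0 k ω - a1 k ω * D.tau k ω / S.dl c k -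
      a2 k ω * (D.ph0 k ω - D.ph1 k ω * D.tau k ω) / S.dl (c + u) k) := rfl
  rw [e0, e1, e2]
  ring

theorem cf_slope (a0 a1 a2 : ∀ k, (l k).T.Ω → ℝ) {k : ℕ} {ω : (l k).T.Ω} {K K1 : ℝ} (hc : c ≤ ζ) (hu : c + u ≤ ζ)
    (hK : 0 ≤ K) (hK1 : 0 ≤ K1) (h1 : |D.ph1 k ω| ≤ K) (h2 : |D.be k ω| ≤ K) (h3 : |D.ga k ω| ≤ K)
    (h4 : |a1 k ω| ≤ K1) (h5 : |a2 k ω| ≤ K1) (r : Fin (m + 1)) :
    |(D.cf a0 a1 a2 k ω).2 r| ≤ K + (K1 + K1 * K) := by
  have hd : ∀ {x : ℝ}, x ≤ ζ → S.dl ζ k / S.dl x k ≤ 1 := by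
    intro x hx
    rw [div_le_one (S.dl_pos x k)]
    exact S.dl_anti hx k
  have hd0 : ∀ x : ℝ, 0 ≤ S.dl ζ k / S.dl x k := fun x => div_nonneg (S.dl_pos ζ k).le (S.dl_pos x k).le
  have hKK := mul_nonneg hK1 hK
  have e1 : |S.dl ζ k / S.dl c k * a1 k ω| ≤ K1 := by
    rw [abs_mul, abs_of_nonneg (hd0 c)]
    have := mul_le_mul (hd hc) h4 (abs_nonneg _) zero_le_one
    linarith
  have e2 : |S.dl ζ k / S.dl (c + u) k * a2 k ω| ≤ K1 := by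
    rw [abs_mul, abs_of_nonneg (hd0 _)]
    have := mul_le_mul (hd hu) h5 (abs_nonneg _) zero_le_one
    linarith
  have e3 : |S.dl ζ k / S.dl (c + u) k * a2 k ω * D.ph1 k ω| ≤ K1 * K := by
    rw [abs_mul]
    exact mul_le_mul e2 h1 (abs_nonneg _) hK1
  show |(if r = 0 then _ else if r = j.succ then _ else _)| ≤ _
  split_ifs
  · have e4 : D.be k ω + S.dl ζ k * (a1 k ω / S.dl c k - a2 k ω * D.ph1 k ω / S.dl (c + u) k) =
      D.be k ω + S.dl ζ k / S.dl c k * a1 k ω - S.dl ζ k / S.dl (c + u) k * a2 k ω * D.ph1 k ω := by ring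
    rw [e4]
    have := abs_le.mp e1
    have := abs_le.mp e3
    have := abs_le.mp h2
    rw [abs_le]
    constructor <;> linarith
  · have e4 : D.ga k ω + S.dl ζ k * (a2 k ω / S.dl (c + u) k) =
      D.ga k ω + S.dl ζ k / S.dl (c + u) k * a2 k ω := by ring
    rw [e4]
    have := abs_le.mp e2
    have := abs_le.mp h3
    rw [abs_le]
    constructor <;> linarith
  · rw [abs_zero]
    linarith

/-- on the typical event: the distance from the sheet -/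
theorem df_cf (a0 a1 a2 : ∀ k, (l k).T.Ω → ℝ) {k : ℕ} {ω : (l k).T.Ω}
    (h0 : D.q k 0 ω = (lt s l k ω - D.tau k ω) / S.dl c k)
    (h1 : D.q k 1 ω = (lP s l j k ω - D.ph0 k ω - D.ph1 k ω * (lt s l k ω - D.tau k ω)) / S.dl (c + u) k)
    (h2 : D.z k ω = (lP s l i k ω - D.al k ω - D.be k ω * lt s l k ω - D.ga k ω * lP s l j k ω) / S.dl ζ k) :
    df i {0, j.succ} (D.cf a0 a1 a2 k ω) (s.a.v k ((l k).p.π ω)) (s.x.v k ((l k).p.π ω))
      (s.t.v k ((l k).p.π ω) 0) = S.dl ζ k * (D.z k ω - (a0 k ω + a1 k ω * D.q k 0 ω + a2 k ω * D.q k 1 ω)) := by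
  unfold df
  rw [aff_cf, h0, h1, h2]
  exact alg_df (S.dl_pos ζ k).ne' rfl

end BkD

end

end Pool.Agent.Helper52.BK
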