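import Pool.Agent.Helper99.BK.Stmts

namespace Pool.Helper99.BK

open NumberField

theorem dv1_fin (K : Type) [Field K] [NumberField K] (I : Ideal (𝓞 K)) (hI : I ≠ ⊥) :
    {M : Ideal (𝓞 K) | M ∣ I}.Finite := by
  classical
  have : Fintype (Ideal (𝓞 K))ˣ := Fintype.ofFinite _
  have h := UniqueFactorizationMonoid.fintypeSubtypeDvd I hI
  have h2 : Finite {M : Ideal (𝓞 K) // M ∣ I} := Finite.of_fintype _
  exact h2

theorem st_DV1 : ST_DV1 := by
  classical
  intro K _ _ I J hI hJ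
  refine ⟨dv1_fin K I hI, ?_, ?_⟩
  · have hf1 := dv1_fin K I hI
    have hf2 := dv1_fin K J hJ
    have hsub : {M : Ideal (𝓞 K) | M ∣ I * J} ⊆
        (fun p : Ideal (𝓞 K) × Ideal (𝓞 K) => p.1 * p.2) ''
          ({M : Ideal (𝓞 K) | M ∣ I} ×ˢ {M : Ideal (𝓞 K) | M ∣ J}) := by
      intro M hM
      obtain ⟨a, b, ha, hb, hab⟩ := exists_dvd_and_dvd_of_dvd_mul (show M ∣ I * J from hM)
      exact ⟨(a, b), ⟨ha, hb⟩, hab.symm⟩
    calc {M : Ideal (𝓞 K) | M ∣ I * J}.ncard ≤ _ :=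
          Set.ncard_le_ncard hsub ((hf1.prod hf2).image _)
      _ ≤ _ := Set.ncard_image_le (hf1.prod hf2)
      _ = _ := Set.ncard_prod
  · intro hp v
    have hset : {M : Ideal (𝓞 K) | M ∣ I ^ v} = (fun i => I ^ i) '' (Finset.range (v + 1) : Set ℕ) := by
      ext M
      simp only [Set.mem_ofPred_eq, Set.mem_image, Finset.coe_range, Set.mem_Iio]
      rw [dvd_prime_pow hp]
      constructor
      · rintro ⟨i, hi, h⟩
        exact ⟨i, by omega, (associated_iff_eq.mp h).symm⟩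
      · rintro ⟨i, hi, h⟩
        exact ⟨i, by omega, associated_iff_eq.mpr h.symm⟩
    rw [hset, Set.ncard_image_of_injective _ (pow_injective_of_not_isUnit hp.not_isUnit hp.ne_zero),
      Set.ncard_coe_finset, Finset.card_range]

end Pool.Helper99.BK
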