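import Pool.Agent.Helper99.BK.Stmts

namespace Pool.Helper99.BK

open NumberField

theorem ker_a (K : Type) [Field K] [NumberField K] (h3 : Module.finrank ℚ K = 3)
    (σ τ : K →+* ℂ) (hst : σ ≠ τ) (x : K) (hx : σ x = τ x) : ∃ q : ℚ, x = algebraMap ℚ K q := by
  have hp : (Module.finrank ℚ K).Prime := by rw [h3]; norm_num
  have hs := IntermediateField.isSimpleOrder_of_finrank_prime ℚ K hp
  let L : IntermediateField ℚ K := (RingHom.eqLocusField σ τ).toIntermediateField (fun q => by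
    rw [RingHom.mem_eqLocusField]
    simp)
  have hmem : ∀ y : K, y ∈ L ↔ σ y = τ y := fun y => Iff.rfl
  rcases hs.eq_bot_or_eq_top L with h | h
  · have h1 : x ∈ L := (hmem x).2 hx
    rw [h, IntermediateField.mem_bot] at h1
    obtain ⟨q, hq⟩ := h1
    exact ⟨q, hq.symm⟩
  · exfalso
    apply hst
    ext y
    have h1 : y ∈ L := by rw [h]; exact IntermediateField.mem_top
    exact (hmem y).1 h1

theorem ker_int (K : Type) [Field K] [NumberField K] (a : 𝓞 K) (q : ℚ)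
    (h : (a : K) = algebraMap ℚ K q) : ∃ n : ℤ, q = n := by
  have h1 : IsIntegral ℤ (algebraMap ℚ K q) := by
    rw [← h]
    exact a.2
  have h2 : IsIntegral ℤ q := (isIntegral_algebraMap_iff (algebraMap ℚ K).injective).1 h1
  obtain ⟨n, hn⟩ := IsIntegrallyClosed.isIntegral_iff.mp h2
  exact ⟨n, hn.symm⟩

theorem st_KER : ST_KER := by
  intro K _ _ h3 σ τ hst
  refine ⟨fun x hx => ker_a K h3 σ τ hst x hx, ?_⟩
  intro u hu
  have hu0 : ((u : 𝓞 K) : K) ≠ 0 := by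
    intro h
    have h1 : (u : 𝓞 K) = 0 := by
      apply (FaithfulSMul.algebraMap_injective (𝓞 K) K)
      rw [map_zero]
      exact h
    exact u.ne_zero h1
  have hτ0 : τ ((u : 𝓞 K) : K) ≠ 0 := by
    rw [Ne, map_eq_zero]
    exact hu0
  have h1 : σ (((u : 𝓞 K) : K) ^ 2) = τ (((u : 𝓞 K) : K) ^ 2) := by
    rw [div_pow, div_eq_one_iff_eq (pow_ne_zero 2 hτ0)] at hu
    rw [map_pow, map_pow, hu]
  obtain ⟨q, hq⟩ := ker_a K h3 σ τ hst _ h1
  have hq1 : (((u : 𝓞 K) ^ 2 : 𝓞 K) : K) = algebraMap ℚ K q := by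
    rw [← hq]
    exact map_pow (algebraMap (𝓞 K) K) _ 2
  obtain ⟨n, hn⟩ := ker_int K _ q hq1
  have huinv : (((u⁻¹ : (𝓞 K)ˣ) : 𝓞 K) : K) = ((u : 𝓞 K) : K)⁻¹ := by
    apply eq_inv_of_mul_eq_one_left
    have h2 : ((u⁻¹ : (𝓞 K)ˣ) : 𝓞 K) * (u : 𝓞 K) = 1 := Units.inv_mul u
    have h4 := congrArg (algebraMap (𝓞 K) K) h2
    rw [map_mul, map_one] at h4
    exact h4
  have hq2 : ((((u⁻¹ : (𝓞 K)ˣ) : 𝓞 K) ^ 2 : 𝓞 K) : K) = algebraMap ℚ K q⁻¹ := by
    rw [map_inv₀, ← hq, ← inv_pow, ← huinv]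
    exact map_pow (algebraMap (𝓞 K) K) _ 2
  obtain ⟨m, hm⟩ := ker_int K _ _ hq2
  have hq0 : q ≠ 0 := by
    intro h
    rw [h, map_zero] at hq
    exact pow_ne_zero 2 hu0 hq
  have hnm : n * m = 1 := by
    have : (n : ℚ) * m = 1 := by
      rw [← hn, ← hm, mul_inv_cancel₀ hq0]
    exact_mod_cast this
  rcases Int.eq_one_or_neg_one_of_mul_eq_one hnm with h | h
  · -- u ^ 2 = 1
    have h2 : (u : 𝓞 K) ^ 2 = 1 := by
      apply (FaithfulSMul.algebraMap_injective (𝓞 K) K)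
      rw [map_one]
      change (((u : 𝓞 K) ^ 2 : 𝓞 K) : K) = 1
      rw [hq1, hn, h]
      simp
    have h4 : ((u : 𝓞 K) - 1) * ((u : 𝓞 K) + 1) = 0 := by
      linear_combination h2
    rcases mul_eq_zero.mp h4 with h5 | h5
    · left
      exact Units.ext (sub_eq_zero.mp h5)
    · right
      apply Units.ext
      rw [Units.val_neg, Units.val_one]
      exact eq_neg_of_add_eq_zero_left h5
  · exfalso
    have h2 : ((u : 𝓞 K) : K) ^ 2 = -1 := by
      rw [hq, hn, h]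
      simp
    have h4 := congrArg (Algebra.norm ℚ) h2
    rw [map_pow] at h4
    have h5 : Algebra.norm ℚ (-1 : K) = -1 := by
      have h6 : (-1 : K) = algebraMap ℚ K (-1) := by simp
      rw [h6, Algebra.norm_algebraMap, h3]
      norm_num
    rw [h5] at h4
    nlinarith [sq_nonneg (Algebra.norm ℚ ((u : 𝓞 K) : K))]

end Pool.Helper99.BK
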