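import Pool.Agent.Helper52.BK.Sht

/-! ST2_BACK, part 5: the slopes of the sheet are tame; the theorem. -/

set_option autoImplicit false

namespace Pool.Agent.Helper52.BK

open Finset Filter Topology Pool.Agent.Helper69.RK Pool.Agent.Helper31.EC Pool.Agent.Helper31.EC.Sp
open Pool.Agent.Helper40.EL Pool.Agent.Helper42.NS Pool.Agent.Helper52.KP Pool.Agent.Helper52.SL
open Pool.Agent.Helper91.GR Pool.Agent.Helper99.EC Pool.Agent.Helper60.CS Pool.Agent.Helper97.SL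
open Pool.Agent.Helper3.LF (Mon pl pl_zero pl_succ Sub_pow_two sp_Sub sp_dl sp_n typ_sub_le)

noncomputable section

variable {S : Sp} {m : ℕ}

/-- the space over the label, restricted to an event -/
def OR (l : Lab S) (E : ∀ k, (l k).T.Ω → Prop) : Sp := (l.ovr 1 one_pos).rest E

theorem OR_n (l : Lab S) (E : ∀ k, (l k).T.Ω → Prop) (k : ℕ) : ((OR l E).F k).n = (S.F k).n := by
  show 1 * (l k).T.n = (S.F k).n
  rw [one_mul, (l k).hn]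

theorem OR_dl (l : Lab S) (E : ∀ k, (l k).T.Ω → Prop) (r : ℝ) (k : ℕ) : (OR l E).dl r k = S.dl r k := by
  unfold Sp.dl
  rw [OR_n]

theorem OR_Sub (l : Lab S) (E : ∀ k, (l k).T.Ω → Prop) {K : ℕ → ℝ} (hK : S.Sub K) : (OR l E).Sub K := by
  refine ⟨hK.1, ?_⟩
  refine hK.2.congr fun k => ?_
  rw [OR_n]

theorem map_idL (x : S.L) : (Pj.id S).map x = x := by
  induction x using cl_ind
  rfl

/-- a vector variable over the label, restricted to an event -/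
def orv {q : ℕ} (l : Lab S) (E : ∀ k, (l k).T.Ω → Prop) (y : S.VV q) : (OR l E).VV q :=
  VV.rest (S := l.ovr 1 one_pos) E (cv l y)

theorem orv_dg {q : ℕ} (l : Lab S) (E : ∀ k, (l k).T.Ω → Prop) (hE : 0 < ul ((l.ovr 1 one_pos).pr E)) (y : S.VV q)
    (r : ℝ) : (orv l E y).dg r = restL (S := l.ovr 1 one_pos) E hE (up1 l (y.dg r)) := by
  have h1 : (orv l E y).dg r = restL (S := l.ovr 1 one_pos) E hE ((cv l y).dg r) :=
    VV.rest_dg (S := l.ovr 1 one_pos) E hE (cv l y) r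
  rw [h1, cv_dg]

theorem or_full (l : Lab S) (E : ∀ k, (l k).T.Ω → Prop) (hE : 0 < ul ((l.ovr 1 one_pos).pr E)) (y1 y2 : S.VV 1)
    (v : ℝ) (hf : Slow.RobGe (S := l.ovr 1 one_pos) (up1 l (y1.dg 1) ⊔ up1 l (y2.dg 1)) ⊥ v) :
    v ≤ H ((orv l E y1).dg 1 ⊔ (orv l E y2).dg 1) := by
  have f1 := hf (l.ovr 1 one_pos) (Pj.id _) E hE
  rw [map_idL, map_idL] at f1
  have e2 : h (restL (S := l.ovr 1 one_pos) E hE (up1 l (y1.dg 1) ⊔ up1 l (y2.dg 1)))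
      (restL (S := l.ovr 1 one_pos) E hE ⊥) = H ((orv l E y1).dg 1 ⊔ (orv l E y2).dg 1) := by
    rw [orv_dg l E hE, orv_dg l E hE, ← h_bot]
    exact congrArg₂ h (restL_sup (S := l.ovr 1 one_pos) E hE _ _) (restL_bot (S := l.ovr 1 one_pos) E hE)
  exact f1.trans_eq e2

theorem floor_abs (x : ℝ) : |(⌊x⌋ : ℝ)| ≤ |x| + 1 := by
  have a1 := Int.floor_le x
  have a2 := Int.lt_floor_add_one x
  have a3 := abs_le.mp (le_refl |x|)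
  rw [abs_le]
  constructor <;> linarith [a3.1, a3.2]

/-- the rounded coefficients -/
def rX (l : Lab S) (cc : ∀ k, (l k).T.Ω → Mon 2 1 → ℝ) (k : ℕ) (ω : (l k).T.Ω) : Fin 3 → ℤ :=
  ![⌊cc k ω (z0 2 1)⌋, ⌊cc k ω (m1 0)⌋, ⌊cc k ω (m1 1)⌋]

theorem rX_bdd (l : Lab S) (E : ∀ k, (l k).T.Ω → Prop) (cc : ∀ k, (l k).T.Ω → Mon 2 1 → ℝ) (L : ℕ → ℝ) (CL : ℝ)
    (hL : ∀ᶠ k in UF, 2 * (L k + 1) + 1 ≤ 2 ^ (CL * (S.F k).n)) (hcc : ∀ᶠ k in UF, ∀ ω a, |cc k ω a| ≤ L k) :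
    Bdd (S := OR l E) (rX l cc) := by
  apply Bdd_int (S := OR l E) (rX l cc) (fun k => L k + 1) CL
  · filter_upwards [hcc] with k hk ω _ a
    have hk' := hk ω
    show |((![⌊cc k ω (z0 2 1)⌋, ⌊cc k ω (m1 0)⌋, ⌊cc k ω (m1 1)⌋] a : ℤ) : ℝ)| ≤ L k + 1
    fin_cases a
    · exact (floor_abs _).trans (by linarith [hk' (z0 2 1)])
    · exact (floor_abs _).trans (by linarith [hk' (m1 0)])
    · exact (floor_abs _).trans (by linarith [hk' (m1 1)])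
  · filter_upwards [hL] with k hk
    rw [OR_n]
    exact hk

theorem rX_eq (l : Lab S) (cc : ∀ k, (l k).T.Ω → Mon 2 1 → ℝ) (k : ℕ) (ω ω' : (l k).T.Ω)
    (hx : rX l cc k ω = rX l cc k ω') : |cc k ω (z0 2 1) - cc k ω' (z0 2 1)| ≤ 1 ∧
      |cc k ω (m1 0) - cc k ω' (m1 0)| ≤ 1 ∧ |cc k ω (m1 1) - cc k ω' (m1 1)| ≤ 1 := by
  have x0 : ⌊cc k ω (z0 2 1)⌋ = ⌊cc k ω' (z0 2 1)⌋ := congrFun hx 0
  have x1 : ⌊cc k ω (m1 0)⌋ = ⌊cc k ω' (m1 0)⌋ := congrFun hx 1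
  have x2 : ⌊cc k ω (m1 1)⌋ = ⌊cc k ω' (m1 1)⌋ := congrFun hx 2
  exact ⟨(Int.abs_sub_lt_one_of_floor_eq_floor x0).le, (Int.abs_sub_lt_one_of_floor_eq_floor x1).le,
    (Int.abs_sub_lt_one_of_floor_eq_floor x2).le⟩

theorem or_mem (l : Lab S) (E : ∀ k, (l k).T.Ω → Prop) (hE : 0 < ul ((l.ovr 1 one_pos).pr E)) :
    ∀ᶠ k in UF, ∀ ω, ((OR l E).F k).μ ω ≠ 0 → (l k).T.μ ω ≠ 0 ∧ E k ω :=
  Pool.Agent.Helper25.EC.rest_mem (W := l.ovr 1 one_pos) E hE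

/-- the coordinate of the point over the label -/
def pY (s : Sys S m) (j : Fin m) : S.VV 1 := TR.vec fun _ : Fin 1 => TR.cor s.P j

theorem pY_dg (s : Sys S m) (j : Fin m) (r : ℝ) : (pY s j).dg r = TR.dg (TR.cor s.P j) r := rfl

namespace BkD

variable {s : Sys S m} {l : Lab S} {i j : Fin m} {c u ζ : ℝ} (D : BkD s l i j c u ζ)

theorem ne_hb (E : ∀ k, (l k).T.Ω → Prop) (hE : 0 < ul ((l.ovr 1 one_pos).pr E))
    (cc : ∀ k, (l k).T.Ω → Mon 2 1 → ℝ)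
    (hz : ∀ k ω, E k ω → |D.z k ω - (cc k ω (z0 2 1) + cc k ω (m1 0) * D.q k 0 ω + cc k ω (m1 1) * D.q k 1 ω)| ≤
      2 + |D.q k 0 ω| + |D.q k 1 ω|)
    (hRT : ∀ k ω, E k ω → TyP s l i j c u ζ D.tau D.ph0 D.ph1 D.al D.be D.ga D.q D.z D.K k ω) :
    ∀ᶠ k in UF, ∀ ω, ((OR l E).F k).μ ω ≠ 0 → Bxd (OR l E) (orv l E s.t) (orv l E (pY s j)) D.tau D.ph0 D.ph1
      (fun k ω => cc k ω (z0 2 1)) (fun k ω => cc k ω (m1 0)) (fun k ω => cc k ω (m1 1)) c u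
      (fun k => 3 * D.K k + 2) k ω := by
  filter_upwards [or_mem l E hE, D.hK.1] with k hk hK0 ω hω
  obtain ⟨-, hEω⟩ := hk ω hω
  obtain ⟨⟨t1, t2, t3⟩, ⟨t4, t5, t6⟩, t7, t8, t9⟩ := hRT k ω hEω
  have hzz := hz k ω hEω
  have hd0 := S.dl_pos c k
  have hdu := S.dl_pos (c + u) k
  have eT : (orv l E s.t).v k ω 0 = lt s l k ω := rfl
  have eY : (orv l E (pY s j)).v k ω 0 = lP s l j k ω := rfl
  unfold Bxd
  rw [OR_dl, OR_dl, eT, eY]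
  refine ⟨?_, ?_, by linarith, ?_⟩
  · rw [t1, abs_div, abs_of_pos hd0, div_le_iff₀ hd0] at t4
    have := mul_nonneg (show 0 ≤ 2 * D.K k + 2 by linarith) hd0.le
    linarith
  · rw [t2, abs_div, abs_of_pos hdu, div_le_iff₀ hdu] at t5
    have := mul_nonneg (show 0 ≤ 2 * D.K k + 2 by linarith) hdu.le
    linarith
  · rw [← t1, ← t2]
    have e1 := abs_le.mp hzz
    have e2 := abs_le.mp t6
    rw [abs_le]
    constructor <;> linarith [e1.1, e1.2, e2.1, e2.2]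

theorem ne_hl (E : ∀ k, (l k).T.Ω → Prop) (hE : 0 < ul ((l.ovr 1 one_pos).pr E))
    (cc : ∀ k, (l k).T.Ω → Mon 2 1 → ℝ) :
    ∀ᶠ k in UF, ∀ ω ω', ((OR l E).F k).μ ω ≠ 0 → ((OR l E).F k).μ ω' ≠ 0 → ((OR l E).F k).Z ω ω' →
      Lbd (OR l E) (rX l cc) D.tau D.ph0 D.ph1 (fun k ω => cc k ω (z0 2 1)) (fun k ω => cc k ω (m1 0))
        (fun k ω => cc k ω (m1 1)) k ω ω' := by
  filter_upwards [or_mem l E hE, D.hm] with k hk hm' ω ω' m1' m2' hZ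
  obtain ⟨n1, -⟩ := hk ω m1'
  obtain ⟨n2, -⟩ := hk ω' m2'
  have hZ' : (l k).V ω ω' ∧ (l k).T.Z ω ω' := hZ
  obtain ⟨d1, d2, d3, -⟩ := hm' ω ω' n1 n2 hZ'.1 hZ'.2
  exact ⟨d1, d2, d3, fun hx => rX_eq l cc k ω ω' hx⟩

/-- no event of positive probability on which a slope is large and dominates -/
theorem no_event (hc0 : 0 ≤ c) (hu0 : 0 ≤ u) {δ : ℝ} (hδ : 0 < δ) (h1 : c + u + δ ≤ 1)
    (hfull : Slow.RobGe (S := l.ovr 1 one_pos) (up1 l s.T ⊔ up1 l (TR.dg (TR.cor s.P j) 1)) ⊥ (2 - 2 * c - u))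
    (E R : ∀ k, (l k).T.Ω → Prop) (hER : 0 < ul (l.sp.pr fun k ω => E k ω ∧ R k ω))
    (cc : ∀ k, (l k).T.Ω → Mon 2 1 → ℝ) (L : ℕ → ℝ) (CL : ℝ)
    (hL : ∀ᶠ k in UF, 2 * (L k + 1) + 1 ≤ 2 ^ (CL * (S.F k).n)) (hcc : ∀ᶠ k in UF, ∀ ω a, |cc k ω a| ≤ L k)
    (hn : Nul S (fun k => h (fc (Setoid.ker (cc k)) : FL ((l k).T.rest (E k))) ((l k).T.rmap (E k) (l k).v)))
    (hz : ∀ k ω, E k ω → R k ω →
      |D.z k ω - (cc k ω (z0 2 1) + cc k ω (m1 0) * D.q k 0 ω + cc k ω (m1 1) * D.q k 1 ω)| ≤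
        2 + |D.q k 0 ω| + |D.q k 1 ω|)
    (hRT : ∀ k ω, R k ω → TyP s l i j c u ζ D.tau D.ph0 D.ph1 D.al D.be D.ga D.q D.z D.K k ω)
    (h12 : (∀ k ω, R k ω → |cc k ω (m1 1)| ≤ |cc k ω (m1 0)| ∧ 2 ^ (δ * (S.F k).n) ≤ |cc k ω (m1 0)|) ∨
      (∀ k ω, R k ω → |cc k ω (m1 0)| ≤ |cc k ω (m1 1)| ∧ 2 ^ (δ * (S.F k).n) ≤ |cc k ω (m1 1)|)) : False := by
  have hER' : 0 < ul ((l.ovr 1 one_pos).pr fun k ω => E k ω ∧ R k ω) := hER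
  have f1 := or_full l (fun k ω => E k ω ∧ R k ω) hER' s.t (pY s j) _ hfull
  have hX := rX_bdd l (fun k ω => E k ω ∧ R k ω) cc L CL hL hcc
  have hX0 : io (S := OR l fun k ω => E k ω ∧ R k ω) (rX l cc) ≤ ⊥ := io_bot_of_known l E R hER cc hn (rX l cc)
    (fun k ω ω' h => by
      show ![⌊cc k ω (z0 2 1)⌋, ⌊cc k ω (m1 0)⌋, ⌊cc k ω (m1 1)⌋] =
        ![⌊cc k ω' (z0 2 1)⌋, ⌊cc k ω' (m1 0)⌋, ⌊cc k ω' (m1 1)⌋]
      rw [h]) hX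
  have hK' : (OR l fun k ω => E k ω ∧ R k ω).Sub (fun k => 3 * D.K k + 2) :=
    OR_Sub l _ (((S.Sub_const (by norm_num : (0 : ℝ) ≤ 3)).mul D.hK).add (S.Sub_const (by norm_num : (0 : ℝ) ≤ 2)))
  have hmem := or_mem l (fun k ω => E k ω ∧ R k ω) hER'
  have hb := D.ne_hb (fun k ω => E k ω ∧ R k ω) hER' cc (fun k ω h => hz k ω h.1 h.2) (fun k ω h => hRT k ω h.2)
  have hl := D.ne_hl (fun k ω => E k ω ∧ R k ω) hER' cc
  rcases h12 with h2 | h2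
  · have f3 := full_lt_one (O := OR l fun k ω => E k ω ∧ R k ω) (orv l (fun k ω => E k ω ∧ R k ω) s.t)
      (orv l (fun k ω => E k ω ∧ R k ω) (pY s j)) D.tau D.ph0 D.ph1 (fun k ω => cc k ω (z0 2 1))
      (fun k ω => cc k ω (m1 0)) (fun k ω => cc k ω (m1 1)) hX hX0 hc0 hu0 hδ.le h1 (fun k => 3 * D.K k + 2) hK' (by
      filter_upwards [hb, hmem] with k hk hk' ω hω
      refine ⟨hk ω hω, ?_⟩
      rw [OR_n]
      exact h2 k ω (hk' ω hω).2.2) hl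
    linarith
  · have f3 := full_lt_two (O := OR l fun k ω => E k ω ∧ R k ω) (orv l (fun k ω => E k ω ∧ R k ω) s.t)
      (orv l (fun k ω => E k ω ∧ R k ω) (pY s j)) D.tau D.ph0 D.ph1 (fun k ω => cc k ω (z0 2 1))
      (fun k ω => cc k ω (m1 0)) (fun k ω => cc k ω (m1 1)) hX hX0 hc0 hu0 hδ.le h1 (fun k => 3 * D.K k + 2) hK' (by
      filter_upwards [hb, hmem] with k hk hk' ω hω
      refine ⟨hk ω hω, ?_⟩
      rw [OR_n]
      exact h2 k ω (hk' ω hω).2.2) hl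
    linarith

end BkD

end

end Pool.Agent.Helper52.BK
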