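import Pool.Agent.Helper52.BK.Back
import Pool.Agent.Helper25.EC.Rst

/-! ST2_BACK, part 4: the sheet of the refined label on the event. -/

set_option autoImplicit false

namespace Pool.Agent.Helper52.BK

open Finset Filter Topology Pool.Agent.Helper69.RK Pool.Agent.Helper31.EC Pool.Agent.Helper31.EC.Sp
open Pool.Agent.Helper40.EL Pool.Agent.Helper42.NS Pool.Agent.Helper52.KP Pool.Agent.Helper52.SL
open Pool.Agent.Helper91.GR Pool.Agent.Helper99.EC Pool.Agent.Helper60.CS Pool.Agent.Helper97.SL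
open Pool.Agent.Helper3.LF (Mon pl pl_zero pl_succ Sub_pow_two sp_Sub sp_dl sp_n typ_sub_le)

noncomputable section

variable {S : Sp} {m : ℕ}

namespace BkD

variable {s : Sys S m} {l : Lab S} {i j : Fin m} {c u ζ : ℝ} (D : BkD s l i j c u ζ)

/-- the event on which the slopes are tame -/
def Gd (a1 a2 : ∀ k, (l k).T.Ω → ℝ) (K1 : ℕ → ℝ) (k : ℕ) (ω : (l k).T.Ω) : Prop :=
  (|D.ph1 k ω| ≤ D.K k ∧ |D.be k ω| ≤ D.K k ∧ |D.ga k ω| ≤ D.K k) ∧ |a1 k ω| ≤ K1 k ∧ |a2 k ω| ≤ K1 k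

/-- THE SHEET -/
theorem sht {E : ∀ k, (l k).T.Ω → Prop} (hE : 0 < ul (l.sp.pr E)) (W : ∀ k, Setoid (l k).T.Ω) (hc : c ≤ ζ)
    (hu : c + u ≤ ζ) (a0 a1 a2 : ∀ k, (l k).T.Ω → ℝ)
    (ha : ∀ k ω ω', (l k).T.μ ω ≠ 0 → (l k).T.μ ω' ≠ 0 → (l k).V ω ω' → (l k).T.Z ω ω' → W k ω ω' →
      a0 k ω = a0 k ω' ∧ a1 k ω = a1 k ω' ∧ a2 k ω = a2 k ω') (K1 : ℕ → ℝ) (hK1 : S.Sub K1)
    (K2 : ℕ → ℝ) (hK2 : S.Sub K2) (r : ℕ → ℝ) {σ : ℝ} (hσ : ∀ k, S.dl ζ k * r k ≤ S.dl σ k)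
    (h1 : Typ (S := l.sp.rest E) (fun k (ω : (l k).T.Ω) => |a1 k ω| ≤ K1 k ∧ |a2 k ω| ≤ K1 k))
    (h2 : Typ (S := l.sp.rest E) (fun k (ω : (l k).T.Ω) =>
      |D.z k ω - (a0 k ω + a1 k ω * D.q k 0 ω + a2 k ω * D.q k 1 ω)| ≤ K2 k * r k)) :
    ∃ v : ∀ k, (((l.im E).addW W) k).T.Ω → Cf (m + 1),
      Sht (s.im l.pj E hE) i {0, j.succ} σ ((l.im E).addW W) v := by
  classical
  set gd : ℕ → Prop := fun k => ∀ ω ω', (l k).T.μ ω ≠ 0 → (l k).T.μ ω' ≠ 0 → (l k).V ω ω' → (l k).T.Z ω ω' →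
    D.tau k ω = D.tau k ω' ∧ D.ph0 k ω = D.ph0 k ω' ∧ D.ph1 k ω = D.ph1 k ω' ∧ D.al k ω = D.al k ω' ∧
      D.be k ω = D.be k ω' ∧ D.ga k ω = D.ga k ω' with hgd
  set v : ∀ k, (l k).T.Ω → Cf (m + 1) := fun k ω =>
    if gd k ∧ D.Gd a1 a2 K1 k ω then D.cf a0 a1 a2 k ω else (0, 0) with hv
  have hKS : S.Sub (fun k => D.K k + (K1 k + K1 k * D.K k)) := D.hK.add (hK1.add (hK1.mul D.hK))
  refine ⟨v, ?_, fun k => (D.K k + (K1 k + K1 k * D.K k)) + K2 k, hKS.add hK2, ?_, ?_⟩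
  · intro k ω ω' m1 m2 hV hZ
    have n1 := ((l k).T.rest_supp (E k) ω m1).1
    have n2 := ((l k).T.rest_supp (E k) ω' m2).1
    have hV1 : (l k).V ω ω' := hV.1
    have hV2 : W k ω ω' := hV.2
    obtain ⟨b0, b1, b2⟩ := ha k ω ω' n1 n2 hV1 hZ hV2
    show v k ω = v k ω'
    by_cases hg : gd k
    · obtain ⟨d1, d2, d3, d4, d5, d6⟩ := hg ω ω' n1 n2 hV1 hZ
      have e1 : D.Gd a1 a2 K1 k ω ↔ D.Gd a1 a2 K1 k ω' := by
        unfold Gd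
        rw [d3, d5, d6, b1, b2]
      have e2 : D.cf a0 a1 a2 k ω = D.cf a0 a1 a2 k ω' := by
        unfold cf
        rw [d1, d2, d3, d4, d5, d6, b0, b1, b2]
      show (if gd k ∧ D.Gd a1 a2 K1 k ω then D.cf a0 a1 a2 k ω else (0, 0)) =
        (if gd k ∧ D.Gd a1 a2 K1 k ω' then D.cf a0 a1 a2 k ω' else (0, 0))
      rw [e2]
      by_cases h : D.Gd a1 a2 K1 k ω
      · rw [if_pos ⟨hg, h⟩, if_pos ⟨hg, e1.mp h⟩]
      · rw [if_neg (fun h' => h h'.2), if_neg (fun h' => h (e1.mpr h'.2))]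
    · show (if gd k ∧ D.Gd a1 a2 K1 k ω then D.cf a0 a1 a2 k ω else (0, 0)) =
        (if gd k ∧ D.Gd a1 a2 K1 k ω' then D.cf a0 a1 a2 k ω' else (0, 0))
      rw [if_neg (fun h => hg h.1), if_neg (fun h => hg h.1)]
  · filter_upwards [D.hK.1, hK1.1, hK2.1] with k c1 c2 c3 ω _ y
    show |(if gd k ∧ D.Gd a1 a2 K1 k ω then D.cf a0 a1 a2 k ω else ((0, 0) : Cf (m + 1))).2 y| ≤ _
    have c4 := mul_nonneg c2 c1
    split_ifs with h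
    · obtain ⟨-, ⟨g1, g2, g3⟩, g4, g5⟩ := h
      have := D.cf_slope a0 a1 a2 hc hu c1 c2 g1 g2 g3 g4 g5 y
      linarith
    · show |(0 : Fin (m + 1) → ℝ) y| ≤ _
      rw [Pi.zero_apply, abs_zero]
      linarith
  · have ty : Typ (S := l.sp.rest E) (TyP s l i j c u ζ D.tau D.ph0 D.ph1 D.al D.be D.ga D.q D.z D.K) :=
      Pool.Agent.Helper25.EC.typ_rest (W := l.sp) E hE
        (A := TyP s l i j c u ζ D.tau D.ph0 D.ph1 D.al D.be D.ga D.q D.z D.K) D.ty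
    have t0 := Typ.and (S := l.sp.rest E) ty (Typ.and (S := l.sp.rest E) h1 h2)
    refine Typ.mono (S := l.sp.rest E) t0 ?_
    filter_upwards [D.hm, D.hK.1, hK1.1, hK2.1] with k hk c1 c2 c3 ω _ h
    have hgoal : |S.dl ζ k * (D.z k ω - (a0 k ω + a1 k ω * D.q k 0 ω + a2 k ω * D.q k 1 ω))| ≤
        ((D.K k + (K1 k + K1 k * D.K k)) + K2 k) * S.dl σ k := by
      obtain ⟨-, -, t12⟩ := h
      rw [abs_mul, abs_of_pos (S.dl_pos ζ k)]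
      have c4 := mul_nonneg c2 c1
      calc S.dl ζ k * |D.z k ω - (a0 k ω + a1 k ω * D.q k 0 ω + a2 k ω * D.q k 1 ω)| ≤
            S.dl ζ k * (K2 k * r k) := mul_le_mul_of_nonneg_left t12 (S.dl_pos ζ k).le
        _ = K2 k * (S.dl ζ k * r k) := by ring
        _ ≤ K2 k * S.dl σ k := mul_le_mul_of_nonneg_left (hσ k) c3
        _ ≤ _ := mul_le_mul_of_nonneg_right (by linarith) (S.dl_pos σ k).le
    obtain ⟨⟨⟨t1, t2, t3⟩, -, t7, t8, t9⟩, ⟨t10, t11⟩, -⟩ := h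
    have hg : gd k ∧ D.Gd a1 a2 K1 k ω := ⟨hk, ⟨t7, t8, t9⟩, t10, t11⟩
    have e1 : v k ω = D.cf a0 a1 a2 k ω := if_pos hg
    have e3 := D.df_cf a0 a1 a2 t1 t2 t3
    rw [← e3, ← e1] at hgoal
    exact hgoal

end BkD

end

end Pool.Agent.Helper52.BK
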