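import Pool.Agent.Helper31.EC.Ring
import Pool.Agent.Helper31.EC.Sat

/-! ST2_BACK, part 1: over a flat two dimensional base an affine function with large coefficients, known to the base
label, is not bounded: otherwise the base would not be full. Exact entropy calculus. -/

set_option autoImplicit false

namespace Pool.Agent.Helper52.BK

open Finset Filter Topology Pool.Agent.Helper69.RK Pool.Agent.Helper31.EC Pool.Agent.Helper31.EC.Sp

noncomputable section

variable {O : Sp}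

/-- data: base coordinates `T`, `Y` in the box of the label, an affine function `c0 + c1 q0 + c2 q1` of the box
coordinates, bounded by `K` -/
def Bxd (O : Sp) (T Y : O.VV 1) (tau ph0 ph1 c0 c1 c2 : ∀ k, (O.F k).Ω → ℝ) (c u : ℝ) (K : ℕ → ℝ) (k : ℕ)
    (ω : (O.F k).Ω) : Prop :=
  |T.v k ω 0 - tau k ω| ≤ K k * O.dl c k ∧
  |Y.v k ω 0 - ph0 k ω - ph1 k ω * (T.v k ω 0 - tau k ω)| ≤ K k * O.dl (c + u) k ∧
  |ph1 k ω| ≤ K k ∧
  |c0 k ω + c1 k ω * ((T.v k ω 0 - tau k ω) / O.dl c k) +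
    c2 k ω * ((Y.v k ω 0 - ph0 k ω - ph1 k ω * (T.v k ω 0 - tau k ω)) / O.dl (c + u) k)| ≤ K k

/-- the label functions are functions of the base cells, the coefficients are known up to an error `1` -/
def Lbd (O : Sp) {α : ℕ → Type} (X : ∀ k, (O.F k).Ω → α k) (tau ph0 ph1 c0 c1 c2 : ∀ k, (O.F k).Ω → ℝ) (k : ℕ)
    (ω ω' : (O.F k).Ω) : Prop :=
  tau k ω = tau k ω' ∧ ph0 k ω = ph0 k ω' ∧ ph1 k ω = ph1 k ω' ∧
    (X k ω = X k ω' → |c0 k ω - c0 k ω'| ≤ 1 ∧ |c1 k ω - c1 k ω'| ≤ 1 ∧ |c2 k ω - c2 k ω'| ≤ 1)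

theorem diff_bound {a0 a1 a2 b0 b1 b2 x y x' y' K : ℝ} (hK : 1 ≤ K) (h1 : |a0 + a1 * x + a2 * y| ≤ K)
    (h2 : |b0 + b1 * x' + b2 * y'| ≤ K) (h3 : |a0 - b0| ≤ 1) (h4 : |a1 - b1| ≤ 1) (h5 : |a2 - b2| ≤ 1)
    (hx : |x'| ≤ K) (hy : |y'| ≤ K) : |a1 * (x - x') + a2 * (y - y')| ≤ 5 * K := by
  have e1 : a1 * (x - x') + a2 * (y - y') = (a0 + a1 * x + a2 * y) - (b0 + b1 * x' + b2 * y') -
      ((a0 - b0) + (a1 - b1) * x' + (a2 - b2) * y') := by ring
  rw [e1]
  have h6 : |(a1 - b1) * x'| ≤ K := by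
    rw [abs_mul]
    nlinarith [abs_nonneg (a1 - b1), abs_nonneg x']
  have h7 : |(a2 - b2) * y'| ≤ K := by
    rw [abs_mul]
    nlinarith [abs_nonneg (a2 - b2), abs_nonneg y']
  have h8 := abs_le.mp h1
  have h9 := abs_le.mp h2
  have h10 := abs_le.mp h3
  have h11 := abs_le.mp h6
  have h12 := abs_le.mp h7
  rw [abs_le]
  constructor <;> linarith [h8.1, h8.2, h9.1, h9.2, h10.1, h10.2, h11.1, h11.2, h12.1, h12.2]

/-- CASE 1: the first slope is large and dominates -/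
theorem full_lt_one (T Y : O.VV 1) (tau ph0 ph1 c0 c1 c2 : ∀ k, (O.F k).Ω → ℝ) {α : ℕ → Type}
    {X : ∀ k, (O.F k).Ω → α k} (hX : Bdd X) (hX0 : io X ≤ ⊥) {c u δ : ℝ} (hc : 0 ≤ c) (hu : 0 ≤ u) (hδ : 0 ≤ δ)
    (h1 : c + u + δ ≤ 1) (K : ℕ → ℝ) (hK : O.Sub K)
    (hb : ∀ᶠ k in UF, ∀ ω, (O.F k).μ ω ≠ 0 → Bxd O T Y tau ph0 ph1 c0 c1 c2 c u K k ω ∧
      |c2 k ω| ≤ |c1 k ω| ∧ 2 ^ (δ * (O.F k).n) ≤ |c1 k ω|)
    (hl : ∀ᶠ k in UF, ∀ ω ω', (O.F k).μ ω ≠ 0 → (O.F k).μ ω' ≠ 0 → (O.F k).Z ω ω' →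
      Lbd O X tau ph0 ph1 c0 c1 c2 k ω ω') : H (T.dg 1 ⊔ Y.dg 1) ≤ 2 - 2 * c - u - δ := by
  obtain ⟨KY, hKY, hbY⟩ := Y.bd
  -- the sheared coordinate
  have hwb : O.Sub (fun k => KY k + K k * K k) := hKY.add (hK.mul hK)
  set w : O.VV 1 := ⟨fun k ω _ => Y.v k ω 0 - ph1 k ω * (T.v k ω 0 - tau k ω), ⟨_, hwb, by
    filter_upwards [hb, hbY, hK.1] with k a b hK0 ω hω i
    obtain ⟨⟨b1, b2, b3, b4⟩, -⟩ := a ω hω
    have hd : O.dl c k ≤ 1 := by
      have := O.dl_anti hc k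
      rwa [dl_zero] at this
    have e1 : |T.v k ω 0 - tau k ω| ≤ K k := b1.trans (by
      have := mul_le_mul_of_nonneg_left hd hK0
      linarith)
    have e2 : |ph1 k ω * (T.v k ω 0 - tau k ω)| ≤ K k * K k := by
      rw [abs_mul]
      exact mul_le_mul b3 e1 (abs_nonneg _) hK0
    have e3 := abs_sub (Y.v k ω 0) (ph1 k ω * (T.v k ω 0 - tau k ω))
    have e4 := b ω hω 0
    show |Y.v k ω 0 - ph1 k ω * (T.v k ω 0 - tau k ω)| ≤ _
    linarith⟩⟩ with hw
  have hwv : ∀ k ω i, w.v k ω i = Y.v k ω 0 - ph1 k ω * (T.v k ω 0 - tau k ω) := fun _ _ _ => rfl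
  -- (1) `w` at level `c + u`
  have g1 : w.dg (c + u) = ⊥ := by
    apply le_antisymm _ bot_le
    rw [← cl_bot]
    apply w.dg_le_cl (c + u) Inf.bot (fun _ _ => True) Typ_true (fun k => 2 * K k)
      ((O.Sub_const (by norm_num : (0 : ℝ) ≤ 2)).mul hK)
    filter_upwards [hb, hl] with k a b ω ω' m1 m2 _ _ hZ _ i
    obtain ⟨⟨-, b2, -, -⟩, -⟩ := a ω m1
    obtain ⟨⟨-, b2', -, -⟩, -⟩ := a ω' m2
    obtain ⟨l1, l2, l3, -⟩ := b ω ω' m1 m2 hZ
    rw [hwv, hwv]
    rw [← l1, ← l2, ← l3] at b2'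
    rw [← l1, ← l3]
    have e1 := abs_le.mp b2
    have e2 := abs_le.mp b2'
    rw [abs_le]
    constructor <;> linarith [e1.1, e1.2, e2.1, e2.2]
  -- (2) `T` at level `c + δ` is known from `w`
  have g2 : T.dg (c + δ) ≤ w.dg 1 ⊔ io X := by
    have h2 := T.dg_le_io (c + δ) ((w.bdd 1).pair hX) (fun _ _ => True) Typ_true (fun k => 5 * (K k + 1) + 1)
      (((O.Sub_const (by norm_num : (0 : ℝ) ≤ 5)).mul (hK.add (O.Sub_const zero_le_one))).add
        (O.Sub_const zero_le_one)) (by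
      filter_upwards [hb, hl, hK.1] with k a b hK0 ω ω' m1 m2 _ _ hZ hXX i
      rw [Prod.mk.injEq] at hXX
      obtain ⟨⟨b1, b2, b3, b4⟩, b5, b6⟩ := a ω m1
      obtain ⟨⟨b1', b2', b3', b4'⟩, b5', b6'⟩ := a ω' m2
      obtain ⟨l1, l2, l3, l4⟩ := b ω ω' m1 m2 hZ
      obtain ⟨l4, l5, l6⟩ := l4 hXX.2
      have hww := w.cellv_close 1 k ω ω' hXX.1 0
      rw [hwv, hwv] at hww
      have hd0 := O.dl_pos c k
      have hdu := O.dl_pos (c + u) k
      have hn := (O.F k).pos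
      set x := (T.v k ω 0 - tau k ω) / O.dl c k with hx
      set x' := (T.v k ω' 0 - tau k ω') / O.dl c k with hx'
      set y := (Y.v k ω 0 - ph0 k ω - ph1 k ω * (T.v k ω 0 - tau k ω)) / O.dl (c + u) k with hy
      set y' := (Y.v k ω' 0 - ph0 k ω' - ph1 k ω' * (T.v k ω' 0 - tau k ω')) / O.dl (c + u) k with hy'
      have hK1 : 1 ≤ K k + 1 := by linarith
      have hxb : |x'| ≤ K k + 1 := by
        rw [hx', abs_div, abs_of_pos hd0, div_le_iff₀ hd0]
        have := mul_le_mul_of_nonneg_right (show K k ≤ K k + 1 by linarith) hd0.le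
        linarith
      have hyb : |y'| ≤ K k + 1 := by
        rw [hy', abs_div, abs_of_pos hdu, div_le_iff₀ hdu]
        have := mul_le_mul_of_nonneg_right (show K k ≤ K k + 1 by linarith) hdu.le
        linarith
      have k1 := diff_bound hK1 (show |c0 k ω + c1 k ω * x + c2 k ω * y| ≤ K k + 1 by linarith)
        (show |c0 k ω' + c1 k ω' * x' + c2 k ω' * y'| ≤ K k + 1 by linarith) l4 l5 l6 hxb hyb
      have hc1 : 0 < |c1 k ω| := lt_of_lt_of_le (by positivity) b6
      -- the difference of `y`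
      have k2 : |y - y'| ≤ O.dl (1 - c - u) k := by
        have e1 : y - y' = ((Y.v k ω 0 - ph1 k ω * (T.v k ω 0 - tau k ω)) -
            (Y.v k ω' 0 - ph1 k ω' * (T.v k ω' 0 - tau k ω'))) / O.dl (c + u) k := by
          rw [hy, hy', ← sub_div, ← l2]
          congr 1
          ring
        rw [e1, abs_div, abs_of_pos hdu, div_le_iff₀ hdu]
        refine hww.trans (le_of_eq ?_)
        unfold Sp.dl
        rw [← Real.rpow_add (by norm_num)]
        congr 1
        ring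
      -- the difference of `x`
      have k3 : |x - x'| ≤ 5 * (K k + 1) * O.dl δ k + O.dl (1 - c - u) k := by
        have e1 : |c1 k ω| * |x - x'| ≤ 5 * (K k + 1) + |c1 k ω| * |y - y'| := by
          have e2 : |c1 k ω * (x - x')| ≤ |c1 k ω * (x - x') + c2 k ω * (y - y')| + |c2 k ω * (y - y')| := by
            have e3 := abs_sub (c1 k ω * (x - x') + c2 k ω * (y - y')) (c2 k ω * (y - y'))
            have e4 : c1 k ω * (x - x') + c2 k ω * (y - y') - c2 k ω * (y - y') = c1 k ω * (x - x') := by ring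
            rw [e4] at e3
            exact e3
          rw [abs_mul, abs_mul (c2 k ω)] at e2
          have e5 := mul_le_mul_of_nonneg_right b5 (abs_nonneg (y - y'))
          linarith
        have e6 : |c1 k ω| * |x - x'| ≤ |c1 k ω| * (5 * (K k + 1) * O.dl δ k + |y - y'|) := by
          have e7 : 1 ≤ |c1 k ω| * O.dl δ k := by
            have e8 : (2 : ℝ) ^ (δ * (O.F k).n) * O.dl δ k = 1 := by
              unfold Sp.dl
              rw [← Real.rpow_add (by norm_num), add_neg_cancel, Real.rpow_zero]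
            have e9 := mul_le_mul_of_nonneg_right b6 (O.dl_pos δ k).le
            linarith
          have e10 : 5 * (K k + 1) ≤ 5 * (K k + 1) * (|c1 k ω| * O.dl δ k) :=
            le_mul_of_one_le_right (by linarith) e7
          have e11 : |c1 k ω| * (5 * (K k + 1) * O.dl δ k + |y - y'|) =
              5 * (K k + 1) * (|c1 k ω| * O.dl δ k) + |c1 k ω| * |y - y'| := by ring
          rw [e11]
          linarith
        have e12 := le_of_mul_le_mul_left e6 hc1
        linarith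
      -- the difference of `T`
      have k4 : T.v k ω 0 - T.v k ω' 0 = (x - x') * O.dl c k := by
        rw [hx, hx', ← sub_div, div_mul_cancel₀ _ hd0.ne', ← l1]
        ring
      have hi : i = 0 := Subsingleton.elim _ _
      rw [hi, k4, abs_mul, abs_of_pos hd0]
      have e1 : O.dl δ k * O.dl c k = O.dl (c + δ) k := by
        unfold Sp.dl
        rw [← Real.rpow_add (by norm_num)]
        congr 1
        ring
      have e2 : O.dl (1 - c - u) k * O.dl c k ≤ O.dl (c + δ) k := by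
        have e3 : O.dl (1 - c - u) k * O.dl c k = O.dl (1 - u) k := by
          unfold Sp.dl
          rw [← Real.rpow_add (by norm_num)]
          congr 1
          ring
        rw [e3]
        exact O.dl_anti (by linarith) k
      calc |x - x'| * O.dl c k ≤ (5 * (K k + 1) * O.dl δ k + O.dl (1 - c - u) k) * O.dl c k :=
            mul_le_mul_of_nonneg_right k3 hd0.le
        _ = 5 * (K k + 1) * (O.dl δ k * O.dl c k) + O.dl (1 - c - u) k * O.dl c k := by ring
        _ ≤ 5 * (K k + 1) * O.dl (c + δ) k + O.dl (c + δ) k := by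
            rw [e1]
            linarith
        _ = _ := by ring)
    rwa [io_pair (w.bdd 1) hX] at h2
  have g2' : T.dg (c + δ) ≤ w.dg 1 := g2.trans (sup_le le_rfl (hX0.trans bot_le))
  -- (3) `Y` from `w` and `T`
  have g3 : Y.dg 1 ≤ w.dg 1 ⊔ T.dg 1 := by
    apply VV.dg_le_dg2 Y w T 1 1 1 (fun _ _ => True) Typ_true (fun k => 1 + K k) ((O.Sub_const zero_le_one).add hK)
    filter_upwards [hb, hl, hK.1] with k a b hK0 ω ω' m1 m2 _ _ hZ hww hTT i
    obtain ⟨⟨b1, b2, b3, b4⟩, -⟩ := a ω m1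
    obtain ⟨l1, l2, l3, -⟩ := b ω ω' m1 m2 hZ
    have e1 := hww 0
    rw [hwv, hwv, ← l1, ← l3] at e1
    have e2 := hTT 0
    have hi : i = 0 := Subsingleton.elim _ _
    rw [hi]
    have e3 : Y.v k ω 0 - Y.v k ω' 0 = ((Y.v k ω 0 - ph1 k ω * (T.v k ω 0 - tau k ω)) -
        (Y.v k ω' 0 - ph1 k ω * (T.v k ω' 0 - tau k ω))) + ph1 k ω * (T.v k ω 0 - T.v k ω' 0) := by ring
    rw [e3]
    refine (abs_add_le _ _).trans ?_
    rw [abs_mul, add_mul, one_mul]
    exact add_le_add e1 (mul_le_mul b3 e2 (abs_nonneg _) hK0)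
  -- counting
  have f1 : H (w.dg 1) ≤ 1 - c - u := by
    have e1 := w.h_dg_dg (show c + u ≤ 1 by linarith)
    rw [g1, h_bot] at e1
    simp only [Nat.cast_one, one_mul] at e1
    linarith
  have f2 : h (T.dg 1) (w.dg 1) ≤ 1 - c - δ := by
    have e1 := T.h_dg_dg (show c + δ ≤ 1 by linarith)
    have e2 : h (T.dg 1) (w.dg 1) ≤ h (T.dg 1) (T.dg (c + δ)) := h_anti g2'
    simp only [Nat.cast_one, one_mul] at e1
    linarith
  have f3 : H (T.dg 1 ⊔ Y.dg 1) ≤ H (w.dg 1 ⊔ T.dg 1) := H_mono (sup_le le_sup_right g3)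
  have f4 : H (w.dg 1 ⊔ T.dg 1) = H (w.dg 1) + h (T.dg 1) (w.dg 1) := by
    have := h_chain (w.dg 1) (T.dg 1) (⊥ : O.L)
    rw [h_bot, h_bot, sup_bot_eq] at this
    exact this
  linarith

/-- CASE 2: the second slope is large and dominates -/
theorem full_lt_two (T Y : O.VV 1) (tau ph0 ph1 c0 c1 c2 : ∀ k, (O.F k).Ω → ℝ) {α : ℕ → Type}
    {X : ∀ k, (O.F k).Ω → α k} (hX : Bdd X) (hX0 : io X ≤ ⊥) {c u δ : ℝ} (_hc : 0 ≤ c) (hu : 0 ≤ u) (hδ : 0 ≤ δ)
    (h1 : c + u + δ ≤ 1) (K : ℕ → ℝ) (hK : O.Sub K)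
    (hb : ∀ᶠ k in UF, ∀ ω, (O.F k).μ ω ≠ 0 → Bxd O T Y tau ph0 ph1 c0 c1 c2 c u K k ω ∧
      |c1 k ω| ≤ |c2 k ω| ∧ 2 ^ (δ * (O.F k).n) ≤ |c2 k ω|)
    (hl : ∀ᶠ k in UF, ∀ ω ω', (O.F k).μ ω ≠ 0 → (O.F k).μ ω' ≠ 0 → (O.F k).Z ω ω' →
      Lbd O X tau ph0 ph1 c0 c1 c2 k ω ω') : H (T.dg 1 ⊔ Y.dg 1) ≤ 2 - 2 * c - u - δ := by
  -- (1) `T` at level `c`
  have g1 : T.dg c = ⊥ := by
    apply le_antisymm _ bot_le
    rw [← cl_bot]
    apply T.dg_le_cl c Inf.bot (fun _ _ => True) Typ_true (fun k => 2 * K k)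
      ((O.Sub_const (by norm_num : (0 : ℝ) ≤ 2)).mul hK)
    filter_upwards [hb, hl] with k a b ω ω' m1 m2 _ _ hZ _ i
    obtain ⟨⟨b1, -, -, -⟩, -⟩ := a ω m1
    obtain ⟨⟨b1', -, -, -⟩, -⟩ := a ω' m2
    obtain ⟨l1, -, -, -⟩ := b ω ω' m1 m2 hZ
    have hi : i = 0 := Subsingleton.elim _ _
    rw [← l1] at b1'
    rw [hi]
    have e1 := abs_le.mp b1
    have e2 := abs_le.mp b1'
    rw [abs_le]
    constructor <;> linarith [e1.1, e1.2, e2.1, e2.2]
  -- (2) `Y` at level `c + u + δ` is known from `T`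
  have g2 : Y.dg (c + u + δ) ≤ T.dg 1 ⊔ io X := by
    have h2 := Y.dg_le_io (c + u + δ) ((T.bdd 1).pair hX) (fun _ _ => True) Typ_true
      (fun k => K k + (5 * (K k + 1) + 1))
      (hK.add (((O.Sub_const (by norm_num : (0 : ℝ) ≤ 5)).mul (hK.add (O.Sub_const zero_le_one))).add
        (O.Sub_const zero_le_one))) (by
      filter_upwards [hb, hl, hK.1] with k a b hK0 ω ω' m1 m2 _ _ hZ hXX i
      rw [Prod.mk.injEq] at hXX
      obtain ⟨⟨b1, b2, b3, b4⟩, b5, b6⟩ := a ω m1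
      obtain ⟨⟨b1', b2', b3', b4'⟩, b5', b6'⟩ := a ω' m2
      obtain ⟨l1, l2, l3, l4⟩ := b ω ω' m1 m2 hZ
      obtain ⟨l4, l5, l6⟩ := l4 hXX.2
      have hTT := T.cellv_close 1 k ω ω' hXX.1 0
      have hd0 := O.dl_pos c k
      have hdu := O.dl_pos (c + u) k
      have hn := (O.F k).pos
      set x := (T.v k ω 0 - tau k ω) / O.dl c k with hx
      set x' := (T.v k ω' 0 - tau k ω') / O.dl c k with hx'
      set y := (Y.v k ω 0 - ph0 k ω - ph1 k ω * (T.v k ω 0 - tau k ω)) / O.dl (c + u) k with hy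
      set y' := (Y.v k ω' 0 - ph0 k ω' - ph1 k ω' * (T.v k ω' 0 - tau k ω')) / O.dl (c + u) k with hy'
      have hK1 : 1 ≤ K k + 1 := by linarith
      have hxb : |x'| ≤ K k + 1 := by
        rw [hx', abs_div, abs_of_pos hd0, div_le_iff₀ hd0]
        have := mul_le_mul_of_nonneg_right (show K k ≤ K k + 1 by linarith) hd0.le
        linarith
      have hyb : |y'| ≤ K k + 1 := by
        rw [hy', abs_div, abs_of_pos hdu, div_le_iff₀ hdu]
        have := mul_le_mul_of_nonneg_right (show K k ≤ K k + 1 by linarith) hdu.le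
        linarith
      have k1 := diff_bound hK1 (show |c0 k ω + c1 k ω * x + c2 k ω * y| ≤ K k + 1 by linarith)
        (show |c0 k ω' + c1 k ω' * x' + c2 k ω' * y'| ≤ K k + 1 by linarith) l4 l5 l6 hxb hyb
      have hc2 : 0 < |c2 k ω| := lt_of_lt_of_le (by positivity) b6
      -- the difference of `x`
      have k2 : |x - x'| ≤ O.dl (1 - c) k := by
        have e1 : x - x' = (T.v k ω 0 - T.v k ω' 0) / O.dl c k := by
          rw [hx, hx', ← sub_div, ← l1]
          congr 1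
          ring
        rw [e1, abs_div, abs_of_pos hd0, div_le_iff₀ hd0]
        refine hTT.trans (le_of_eq ?_)
        unfold Sp.dl
        rw [← Real.rpow_add (by norm_num)]
        congr 1
        ring
      -- the difference of `y`
      have k3 : |y - y'| ≤ 5 * (K k + 1) * O.dl δ k + O.dl (1 - c) k := by
        have e1 : |c2 k ω| * |y - y'| ≤ 5 * (K k + 1) + |c2 k ω| * |x - x'| := by
          have e2 : |c2 k ω * (y - y')| ≤ |c1 k ω * (x - x') + c2 k ω * (y - y')| + |c1 k ω * (x - x')| := by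
            have e3 := abs_sub (c1 k ω * (x - x') + c2 k ω * (y - y')) (c1 k ω * (x - x'))
            have e4 : c1 k ω * (x - x') + c2 k ω * (y - y') - c1 k ω * (x - x') = c2 k ω * (y - y') := by ring
            rw [e4] at e3
            exact e3
          rw [abs_mul, abs_mul (c1 k ω)] at e2
          have e5 := mul_le_mul_of_nonneg_right b5 (abs_nonneg (x - x'))
          linarith
        have e6 : |c2 k ω| * |y - y'| ≤ |c2 k ω| * (5 * (K k + 1) * O.dl δ k + |x - x'|) := by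
          have e7 : 1 ≤ |c2 k ω| * O.dl δ k := by
            have e8 : (2 : ℝ) ^ (δ * (O.F k).n) * O.dl δ k = 1 := by
              unfold Sp.dl
              rw [← Real.rpow_add (by norm_num), add_neg_cancel, Real.rpow_zero]
            have e9 := mul_le_mul_of_nonneg_right b6 (O.dl_pos δ k).le
            linarith
          have e10 : 5 * (K k + 1) ≤ 5 * (K k + 1) * (|c2 k ω| * O.dl δ k) :=
            le_mul_of_one_le_right (by linarith) e7
          have e11 : |c2 k ω| * (5 * (K k + 1) * O.dl δ k + |x - x'|) =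
              5 * (K k + 1) * (|c2 k ω| * O.dl δ k) + |c2 k ω| * |x - x'| := by ring
          rw [e11]
          linarith
        have e12 := le_of_mul_le_mul_left e6 hc2
        linarith
      -- the difference of `Y`
      have k4 : Y.v k ω 0 - Y.v k ω' 0 = (y - y') * O.dl (c + u) k + ph1 k ω * (T.v k ω 0 - T.v k ω' 0) := by
        rw [hy, hy', ← sub_div, div_mul_cancel₀ _ hdu.ne', ← l1, ← l2, ← l3]
        ring
      have hi : i = 0 := Subsingleton.elim _ _
      rw [hi, k4]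
      refine (abs_add_le _ _).trans ?_
      rw [abs_mul, abs_of_pos hdu, abs_mul]
      have e1 : O.dl δ k * O.dl (c + u) k = O.dl (c + u + δ) k := by
        unfold Sp.dl
        rw [← Real.rpow_add (by norm_num)]
        congr 1
        ring
      have e2 : O.dl (1 - c) k * O.dl (c + u) k ≤ O.dl (c + u + δ) k := by
        have e3 : O.dl (1 - c) k * O.dl (c + u) k = O.dl (1 + u) k := by
          unfold Sp.dl
          rw [← Real.rpow_add (by norm_num)]
          congr 1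
          ring
        rw [e3]
        exact O.dl_anti (by linarith) k
      have e4 : |ph1 k ω| * |T.v k ω 0 - T.v k ω' 0| ≤ K k * O.dl (c + u + δ) k := by
        apply mul_le_mul b3 (hTT.trans (O.dl_anti h1 k)) (abs_nonneg _) hK0
      calc |y - y'| * O.dl (c + u) k + |ph1 k ω| * |T.v k ω 0 - T.v k ω' 0| ≤
            (5 * (K k + 1) * O.dl δ k + O.dl (1 - c) k) * O.dl (c + u) k + K k * O.dl (c + u + δ) k :=
            add_le_add (mul_le_mul_of_nonneg_right k3 hdu.le) e4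
        _ = 5 * (K k + 1) * (O.dl δ k * O.dl (c + u) k) + O.dl (1 - c) k * O.dl (c + u) k +
            K k * O.dl (c + u + δ) k := by ring
        _ ≤ 5 * (K k + 1) * O.dl (c + u + δ) k + O.dl (c + u + δ) k + K k * O.dl (c + u + δ) k := by
            rw [e1]
            linarith
        _ = _ := by ring)
    rwa [io_pair (T.bdd 1) hX] at h2
  have g2' : Y.dg (c + u + δ) ≤ T.dg 1 := g2.trans (sup_le le_rfl (hX0.trans bot_le))
  -- counting
  have f1 : H (T.dg 1) ≤ 1 - c := by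
    have e1 := T.h_dg_dg (show c ≤ 1 by linarith)
    rw [g1, h_bot] at e1
    simp only [Nat.cast_one, one_mul] at e1
    linarith
  have f2 : h (Y.dg 1) (T.dg 1) ≤ 1 - c - u - δ := by
    have e1 := Y.h_dg_dg h1
    have e2 : h (Y.dg 1) (T.dg 1) ≤ h (Y.dg 1) (Y.dg (c + u + δ)) := h_anti g2'
    simp only [Nat.cast_one, one_mul] at e1
    linarith
  have f4 : H (T.dg 1 ⊔ Y.dg 1) = H (T.dg 1) + h (Y.dg 1) (T.dg 1) := by
    have := h_chain (T.dg 1) (Y.dg 1) (⊥ : O.L)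
    rw [h_bot, h_bot, sup_bot_eq] at this
    exact this
  linarith

end

end Pool.Agent.Helper52.BK
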