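import Pool.Agent.Helper52.BK.Main
import Pool.Agent.Helper31.EC.RobS

/-! ST2_BACK, part 6: the slopes of the sheet are tame; the theorem. -/

set_option autoImplicit false

namespace Pool.Agent.Helper52.BK

open Finset Filter Topology Pool.Agent.Helper69.RK Pool.Agent.Helper31.EC Pool.Agent.Helper31.EC.Sp
open Pool.Agent.Helper40.EL Pool.Agent.Helper42.NS Pool.Agent.Helper52.KP Pool.Agent.Helper52.SL
open Pool.Agent.Helper91.GR Pool.Agent.Helper99.EC Pool.Agent.Helper60.CS Pool.Agent.Helper97.SL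
open Pool.Agent.Helper3.LF (Mon pl pl_zero pl_succ Sub_pow_two sp_Sub sp_dl sp_n typ_sub_le)

noncomputable section

variable {S : Sp} {m : ℕ}

namespace BkD

variable {s : Sys S m} {l : Lab S} {i j : Fin m} {c u ζ : ℝ} (D : BkD s l i j c u ζ)

/-- the slopes are tame on the event -/
theorem tame (hc0 : 0 ≤ c) (hu0 : 0 ≤ u) {δ : ℝ} (hδ : 0 < δ) (h1 : c + u + δ ≤ 1)
    (hfull : Slow.RobGe (S := l.ovr 1 one_pos) (up1 l s.T ⊔ up1 l (TR.dg (TR.cor s.P j) 1)) ⊥ (2 - 2 * c - u))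
    (E : ∀ k, (l k).T.Ω → Prop)
    (cc : ∀ k, (l k).T.Ω → Mon 2 1 → ℝ) (L : ℕ → ℝ) (CL : ℝ)
    (hL : ∀ᶠ k in UF, 2 * (L k + 1) + 1 ≤ 2 ^ (CL * (S.F k).n)) (hcc : ∀ᶠ k in UF, ∀ ω a, |cc k ω a| ≤ L k)
    (hn : Nul S (fun k => h (fc (Setoid.ker (cc k)) : FL ((l k).T.rest (E k))) ((l k).T.rmap (E k) (l k).v)))
    (Q : ∀ k, (l k).T.Ω → Prop) (hQ : Typ (S := l.sp) Q)
    (hz : ∀ k ω, E k ω → Q k ω →
      |D.z k ω - (cc k ω (z0 2 1) + cc k ω (m1 0) * D.q k 0 ω + cc k ω (m1 1) * D.q k 1 ω)| ≤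
        2 + |D.q k 0 ω| + |D.q k 1 ω|) :
    Typ (S := l.sp) (fun k (ω : (l k).T.Ω) => E k ω →
      |cc k ω (m1 0)| ≤ 2 ^ (δ * (S.F k).n) ∧ |cc k ω (m1 1)| ≤ 2 ^ (δ * (S.F k).n)) := by
  set R1 : ∀ k, (l k).T.Ω → Prop := fun k ω =>
    (TyP s l i j c u ζ D.tau D.ph0 D.ph1 D.al D.be D.ga D.q D.z D.K k ω ∧ Q k ω) ∧
    |cc k ω (m1 1)| ≤ |cc k ω (m1 0)| ∧ 2 ^ (δ * (S.F k).n) ≤ |cc k ω (m1 0)| with hR1
  set R2 : ∀ k, (l k).T.Ω → Prop := fun k ω =>
    (TyP s l i j c u ζ D.tau D.ph0 D.ph1 D.al D.be D.ga D.q D.z D.K k ω ∧ Q k ω) ∧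
    |cc k ω (m1 0)| ≤ |cc k ω (m1 1)| ∧ 2 ^ (δ * (S.F k).n) ≤ |cc k ω (m1 1)| with hR2
  have key : ∀ R : ∀ k, (l k).T.Ω → Prop, (0 < ul (l.sp.pr fun k ω => E k ω ∧ R k ω) → False) →
      Typ (S := l.sp) (fun k (ω : (l k).T.Ω) => ¬ (E k ω ∧ R k ω)) := by
    intro R hR
    rcases typ_or (S := l.sp) (E := fun k (ω : (l k).T.Ω) => ¬ (E k ω ∧ R k ω)) with h | h
    · exact h
    · exfalso
      apply hR
      have e1 : (l.sp.pr fun k (ω : (l k).T.Ω) => ¬ ¬ (E k ω ∧ R k ω)) = l.sp.pr fun k ω => E k ω ∧ R k ω := by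
        refine congrArg (l.sp.pr) ?_
        funext k ω
        exact propext not_not
      rw [← e1]
      exact h
  have k1 := key R1 fun hER => D.no_event hc0 hu0 hδ h1 hfull E R1 hER cc L CL hL hcc hn
    (fun k ω hE h => hz k ω hE h.1.2) (fun k ω h => h.1.1) (Or.inl fun k ω h => h.2)
  have k2 := key R2 fun hER => D.no_event hc0 hu0 hδ h1 hfull E R2 hER cc L CL hL hcc hn
    (fun k ω hE h => hz k ω hE h.1.2) (fun k ω h => h.1.1) (Or.inr fun k ω h => h.2)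
  have t0 := Typ.and (S := l.sp) (Typ.and (S := l.sp) D.ty hQ) (Typ.and (S := l.sp) k1 k2)
  refine Typ.mono (S := l.sp) t0 (Eventually.of_forall fun k (ω : (l k).T.Ω) _ h hE => ?_)
  obtain ⟨hT, n1, n2⟩ := h
  rcases le_total |cc k ω (m1 1)| |cc k ω (m1 0)| with h3 | h3
  · have h4 : ¬ (2 : ℝ) ^ (δ * (S.F k).n) ≤ |cc k ω (m1 0)| := fun h4 => n1 ⟨hE, hT, h3, h4⟩
    have h5 := (not_le.mp h4).le
    exact ⟨h5, h3.trans h5⟩
  · have h4 : ¬ (2 : ℝ) ^ (δ * (S.F k).n) ≤ |cc k ω (m1 1)| := fun h4 => n2 ⟨hE, hT, h3, h4⟩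
    have h5 := (not_le.mp h4).le
    exact ⟨h3.trans h5, h5⟩

end BkD

/-- ST2_BACK: an affine sheet at one stage, known to the label and the point and to the label and the line, over a
FULL base, gives a linear sheet of the window for the exact system on an event -/
theorem st2_back {s : Sys S m} {l : Lab S} {i j : Fin m} {c u ζ : ℝ} (hl : IsKap s c l) (hc0 : 0 ≤ c) (hu0 : 0 ≤ u)
    (hcu : c + u ≤ ζ) (D : BkD s l i j c u ζ) (Zb : ∀ k, Setoid (l k).T.Ω) (e : ℝ) (he : 0 < e)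
    (hZ : ∀ᶠ k in UF, ∀ ω ω', (l k).T.μ ω ≠ 0 → (l k).T.μ ω' ≠ 0 → (l k).V ω ω' → (l k).T.Z ω ω' → (Zb k) ω ω')
    (PB PX : ∀ k, Setoid (l k).T.Ω)
    (hPX : Nul S (fun k => h (fc (PX k) : FL (l k).T) ((l k).v ⊔ (l k).p.map (cA s c k))))
    (hPB : Nul S (fun k => h (fc (PB k) : FL (l k).T) ((l k).v ⊔ (l k).p.map (cB s k))))
    {del ε : ℝ} (hd0 : 0 ≤ del) (hd1 : del ≤ 1) (hε : ε < 1)
    (hf : ∀ᶠ k in UF, LfF (((l k).T).chg (Zb k) e he) 1 (D.q k) (D.z k) (PB k) (PX k)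
      (2 ^ (del * e * (S.F k).n)) (S.dl ((1 - del) * e) k) ε)
    (hfull : Slow.RobGe (S := l.ovr 1 one_pos) (up1 l s.T ⊔ up1 l (TR.dg (TR.cor s.P j) 1)) ⊥ (2 - 2 * c - u)) :
    ∃ (E : ∀ k, (l k).T.Ω → Prop) (hE : 0 < ul (l.sp.pr E)), 1 - ε ≤ ul (l.sp.pr E) ∧
      HH (SJ i {0, j.succ}) (s.im l.pj E hE) c (min 1 (ζ + (1 - del) * e)) := by
  have hρ : ∀ k, 0 < S.dl ((1 - del) * e) k := fun k => S.dl_pos _ k
  have hρ1 : ∀ k, S.dl ((1 - del) * e) k ≤ 1 := fun k => by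
    have h1 := S.dl_anti (show 0 ≤ (1 - del) * e from mul_nonneg (by linarith) he.le) k
    rwa [S.dl_zero] at h1
  obtain ⟨E, cc, hE1, hcc, hz0, hn, hmax⟩ := exact_leaf hl (cA_Bd s c) (fun E => cA_im_Bd s c l.pj E) Zb e he
    D.q D.z PB PX _ _ hρ hε hZ hPX hPB hf
  have hE : 0 < ul (l.sp.pr E) := by linarith
  refine ⟨E, hE, hE1, ?_⟩
  have hde : 0 ≤ (1 - del) * e := mul_nonneg (by linarith) he.le
  have hσ0 : 0 ≤ min 1 (ζ + (1 - del) * e) := le_min zero_le_one (by linarith)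
  have hdm : ((l.im E).addW fun k => Setoid.ker (cc k)).DM (pA (s.im l.pj E hE) c) (pB (s.im l.pj E hE)) := hmax.1
  have hz : ∀ k ω, E k ω → |D.z k ω - (cc k ω (z0 2 1) + cc k ω (m1 0) * D.q k 0 ω + cc k ω (m1 1) * D.q k 1 ω)| ≤
      (2 + |D.q k 0 ω| + |D.q k 1 ω|) * S.dl ((1 - del) * e) k := by
    intro k ω hω
    have h1 := hz0 k ω hω
    have h2 := sum_two (cc k ω) (fun i => D.q k i ω)
    have h3 := sum_two_abs (fun i => D.q k i ω)
    have e1 : ∑ a : Mon 2 1, cc k ω a * ∏ i, D.q k i ω ^ (a.1 i : ℕ) =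
      cc k ω (z0 2 1) + cc k ω (m1 0) * D.q k 0 ω + cc k ω (m1 1) * D.q k 1 ω := h2
    have e2 : ∑ a : Mon 2 1, |∏ i, D.q k i ω ^ (a.1 i : ℕ)| = 1 + |D.q k 0 ω| + |D.q k 1 ω| := h3
    rw [e1, e2] at h1
    refine h1.trans_eq ?_
    ring
  have hz1 : ∀ k ω, E k ω → |D.z k ω - (cc k ω (z0 2 1) + cc k ω (m1 0) * D.q k 0 ω + cc k ω (m1 1) * D.q k 1 ω)| ≤
      2 + |D.q k 0 ω| + |D.q k 1 ω| := by
    intro k ω hω
    have h1 := abs_nonneg (D.q k 0 ω)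
    have h2 := abs_nonneg (D.q k 1 ω)
    refine (hz k ω hω).trans ?_
    exact mul_le_of_le_one_right (by linarith) (hρ1 k)
  have hL : ∀ᶠ k in UF, 2 * ((2 ^ (del * e * (S.F k).n) + S.dl ((1 - del) * e) k) + 1) + 1 ≤
      (2 : ℝ) ^ ((del * e + 3) * (S.F k).n) := by
    filter_upwards [S.lim.eventually_ge_atTop 1] with k hk
    have h1 : (1 : ℝ) ≤ 2 ^ (del * e * (S.F k).n) :=
      Real.one_le_rpow (by norm_num) (mul_nonneg (mul_nonneg hd0 he.le) (S.F k).pos.le)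
    have h2 : (8 : ℝ) ≤ 2 ^ (3 * (S.F k).n) := by
      have h3 : (2 : ℝ) ^ (3 : ℝ) ≤ 2 ^ (3 * (S.F k).n) :=
        Real.rpow_le_rpow_of_exponent_le (by norm_num) (by linarith)
      have h4 : (2 : ℝ) ^ (3 : ℝ) = 8 := by
        rw [show (3 : ℝ) = ((3 : ℕ) : ℝ) by norm_num, Real.rpow_natCast]
        norm_num
      linarith
    rw [add_mul, Real.rpow_add (by norm_num : (0 : ℝ) < 2)]
    have h5 := hρ1 k
    nlinarith
  by_cases hcu1 : c + u < 1
  · -- the tame case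
    have ht : ∀ δ : ℝ, 0 < δ → Typ (S := l.sp.rest E) (fun k (ω : (l k).T.Ω) =>
        max |cc k ω (m1 0)| |cc k ω (m1 1)| ≤ 2 ^ (δ * ((l.sp.rest E).F k).n)) := by
      intro δ hδ
      have t1 := D.tame hc0 hu0 (δ := min δ (1 - (c + u))) (lt_min hδ (by linarith))
        (by linarith [min_le_right δ (1 - (c + u))]) hfull E cc _ _ hL hcc hn (fun _ _ => True)
        (Typ_true (S := l.sp)) (fun k ω hE _ => hz1 k ω hE)
      have t2 := Pool.Agent.Helper25.EC.typ_rest (W := l.sp) E hE t1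
      have t3 := Pool.Agent.Helper25.EC.rest_mem (W := l.sp) E hE
      refine Typ.mono (S := l.sp.rest E) t2 ?_
      filter_upwards [t3] with k hk ω hω h
      obtain ⟨g1, g2⟩ := h (hk ω hω).2
      have g3 : (2 : ℝ) ^ (min δ (1 - (c + u)) * (S.F k).n) ≤ 2 ^ (δ * ((l.sp.rest E).F k).n) := by
        have g4 : ((l.sp.rest E).F k).n = (S.F k).n := (l k).hn
        rw [g4]
        exact Real.rpow_le_rpow_of_exponent_le (by norm_num)
          (mul_le_mul_of_nonneg_right (min_le_left _ _) (S.F k).pos.le)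
      exact max_le (g1.trans g3) (g2.trans g3)
    obtain ⟨K1, hK1, hT1⟩ := typ_sub_le (S := l.sp.rest E) _ ht
    have hK1' : S.Sub K1 := by
      refine ⟨hK1.1, ?_⟩
      refine hK1.2.congr fun k => ?_
      have g4 : ((l.sp.rest E).F k).n = (S.F k).n := (l k).hn
      rw [g4]
    obtain ⟨v, hv⟩ := D.sht hE (fun k => Setoid.ker (cc k)) (by linarith) hcu (fun k ω => cc k ω (z0 2 1))
      (fun k ω => cc k ω (m1 0)) (fun k ω => cc k ω (m1 1))
      (fun k ω ω' _ _ _ _ h => by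
        have h' : cc k ω = cc k ω' := h
        exact ⟨by rw [h'], by rw [h'], by rw [h']⟩) K1 hK1' (fun k => 2 + D.K k + D.K k)
      (((S.Sub_const (by norm_num : (0 : ℝ) ≤ 2)).add D.hK).add D.hK) (fun k => S.dl ((1 - del) * e) k)
      (σ := min 1 (ζ + (1 - del) * e)) (fun k => by
        rw [← S.dl_add]
        exact S.dl_anti (min_le_right _ _) k)
      (Typ.mono (S := l.sp.rest E) hT1 (Eventually.of_forall fun k ω _ h => ⟨(le_max_left _ _).trans h,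
        (le_max_right _ _).trans h⟩))
      (by
        have ty := Pool.Agent.Helper25.EC.typ_rest (W := l.sp) E hE D.ty
        have t3 := Pool.Agent.Helper25.EC.rest_mem (W := l.sp) E hE
        refine Typ.mono (S := l.sp.rest E) ty ?_
        filter_upwards [t3] with k hk ω hω h
        obtain ⟨-, ⟨q0, q1, -⟩, -⟩ := h
        refine (hz k ω (hk ω hω).2).trans ?_
        exact mul_le_mul_of_nonneg_right (by linarith) (S.dl_pos _ k).le)
    exact HH_of_Sht hσ0 (min_le_left _ _) hdm hv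
  · -- the depth of the base is already the full depth
    have hσ1 : min 1 (ζ + (1 - del) * e) = 1 := min_eq_left (by linarith)
    obtain ⟨v, hv⟩ := D.sht hE (fun k => Setoid.ker (cc k)) (by linarith) hcu (fun _ _ => 0)
      (fun _ _ => 0) (fun _ _ => 0) (fun k ω ω' _ _ _ _ h => ⟨rfl, rfl, rfl⟩) (fun _ => 0) (S.Sub_const le_rfl) D.K D.hK
      (fun _ => 1) (σ := min 1 (ζ + (1 - del) * e)) (fun k => by
        rw [hσ1, mul_one]
        exact S.dl_anti (by linarith) k)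
      (by
        refine Typ.mono (S := l.sp.rest E) (Typ_true (S := l.sp.rest E)) (Eventually.of_forall fun k ω _ _ => ?_)
        rw [abs_zero]
        exact ⟨le_rfl, le_rfl⟩)
      (by
        have ty := Pool.Agent.Helper25.EC.typ_rest (W := l.sp) E hE D.ty
        refine Typ.mono (S := l.sp.rest E) ty (Eventually.of_forall fun k ω _ h => ?_)
        obtain ⟨-, ⟨-, -, q2⟩, -⟩ := h
        show |D.z k ω - (0 + 0 * D.q k 0 ω + 0 * D.q k 1 ω)| ≤ D.K k * 1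
        rw [zero_mul, zero_mul, add_zero, add_zero, sub_zero, mul_one]
        exact q2)
    exact HH_of_Sht hσ0 (min_le_left _ _) hdm hv

end

end Pool.Agent.Helper52.BK
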