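import Pool.Agent.Helper52.BK.Thm

/-! ST2_BACK with a second reference sheet of depth `r₂ ≥ c + u` (the slopes of the new sheet are compared with those
of the reference sheet). -/

set_option autoImplicit false

namespace Pool.Agent.Helper52.BK

open Finset Filter Topology Pool.Agent.Helper69.RK Pool.Agent.Helper31.EC Pool.Agent.Helper31.EC.Sp
open Pool.Agent.Helper40.EL Pool.Agent.Helper42.NS Pool.Agent.Helper52.KP Pool.Agent.Helper52.SL
open Pool.Agent.Helper91.GR Pool.Agent.Helper99.EC Pool.Agent.Helper60.CS Pool.Agent.Helper97.SL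
open Pool.Agent.Helper3.LF (Mon pl pl_zero pl_succ Sub_pow_two sp_Sub sp_dl sp_n typ_sub_le)

noncomputable section

variable {S : Sp} {m : ℕ}

theorem alg_ref {x t Y al be ga al2 be2 ga2 tau ph0 ph1 dc du dz dr a0 a1 a2 q0 q1 z z' : ℝ} (hr : dr ≠ 0)
    (e0 : dc * q0 = t - tau) (e1 : du * q1 = Y - ph0 - ph1 * (t - tau)) (e2 : dz * z = x - al - be * t - ga * Y)
    (e3 : dr * z' = x - al2 - be2 * t - ga2 * Y) :
    z' - (((al - al2) + (be - be2) * tau + (ga - ga2) * ph0 + dz * a0) / dr +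
      ((be - be2) * dc + (ga - ga2) * ph1 * dc + dz * a1) / dr * q0 + ((ga - ga2) * du + dz * a2) / dr * q1) =
      (dz / dr) * (z - (a0 + a1 * q0 + a2 * q1)) := by
  field_simp
  linear_combination e3 - e2 - (be - be2) * e0 - (ga - ga2) * ph1 * e0 - (ga - ga2) * e1

theorem ab2 {x y X A : ℝ} (h : |x| ≤ X) (h1 : |x - y| ≤ A) : |y| ≤ X + A := by
  rw [abs_le] at h h1 ⊢
  constructor <;> linarith [h.1, h.2, h1.1, h1.2]

theorem ab3 {x y a X A B : ℝ} (h : |x| ≤ X) (ha : |a| ≤ A) (h1 : |x - y - a| ≤ B) : |y| ≤ X + A + B := by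
  rw [abs_le] at h ha h1 ⊢
  constructor <;> linarith [h.1, h.2, h1.1, h1.2, ha.1, ha.2]

theorem ab4 {x y a b X A B C : ℝ} (h : |x| ≤ X) (ha : |a| ≤ A) (hb : |b| ≤ B) (h1 : |x - y - a - b| ≤ C) :
    |y| ≤ X + A + B + C := by
  rw [abs_le] at h ha hb h1 ⊢
  constructor <;> linarith [h.1, h.2, h1.1, h1.2, ha.1, ha.2, hb.1, hb.2]

/-- the data of a second reference sheet -/
structure RfD (s : Sys S m) (l : Lab S) (i j : Fin m) (r₂ : ℝ) where
  al : ∀ k, (l k).T.Ω → ℝ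
  be : ∀ k, (l k).T.Ω → ℝ
  ga : ∀ k, (l k).T.Ω → ℝ
  K : ℕ → ℝ
  hK : S.Sub K
  hm : ∀ᶠ k in UF, ∀ ω ω', (l k).T.μ ω ≠ 0 → (l k).T.μ ω' ≠ 0 → (l k).V ω ω' → (l k).T.Z ω ω' →
    al k ω = al k ω' ∧ be k ω = be k ω' ∧ ga k ω = ga k ω'
  ty : Typ (S := l.sp) (fun k (ω : (l k).T.Ω) =>
    |lP s l i k ω - al k ω - be k ω * lt s l k ω - ga k ω * lP s l j k ω| ≤ K k * S.dl r₂ k ∧
      |be k ω| ≤ K k ∧ |ga k ω| ≤ K k)

namespace BkD

variable {s : Sys S m} {l : Lab S} {i j : Fin m} {c u ζ r₂ : ℝ} (D : BkD s l i j c u ζ) (R : RfD s l i j r₂)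

/-- the data with the reference sheet -/
def rf : BkD s l i j c u r₂ where
  tau := D.tau
  ph0 := D.ph0
  ph1 := D.ph1
  al := R.al
  be := R.be
  ga := R.ga
  q := D.q
  z := fun k ω => (lP s l i k ω - R.al k ω - R.be k ω * lt s l k ω - R.ga k ω * lP s l j k ω) / S.dl r₂ k
  K := fun k => D.K k + R.K k
  hK := D.hK.add R.hK
  hm := by
    filter_upwards [D.hm, R.hm] with k h1 h2 ω ω' a b v z
    obtain ⟨d1, d2, d3, -⟩ := h1 ω ω' a b v z
    exact ⟨d1, d2, d3, h2 ω ω' a b v z⟩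
  ty := by
    refine Typ.mono (S := l.sp) (Typ.and (S := l.sp) D.ty R.ty) ?_
    filter_upwards [D.hK.1, R.hK.1] with k c1 c2 ω _ h
    obtain ⟨⟨⟨t1, t2, -⟩, ⟨t4, t5, -⟩, t7, -⟩, r1, r2, r3⟩ := h
    refine ⟨⟨t1, t2, rfl⟩, ⟨by linarith, by linarith, ?_⟩, by linarith, by linarith, by linarith⟩
    rw [abs_div, abs_of_pos (S.dl_pos _ k), div_le_iff₀ (S.dl_pos _ k)]
    refine r1.trans ?_
    exact mul_le_mul_of_nonneg_right (by linarith) (S.dl_pos _ k).le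

/-- the measurability of all functions -/
def gd2 (k : ℕ) : Prop := ∀ ω ω', (l k).T.μ ω ≠ 0 → (l k).T.μ ω' ≠ 0 → (l k).V ω ω' → (l k).T.Z ω ω' →
  (D.tau k ω = D.tau k ω' ∧ D.ph0 k ω = D.ph0 k ω' ∧ D.ph1 k ω = D.ph1 k ω' ∧ D.al k ω = D.al k ω' ∧
    D.be k ω = D.be k ω' ∧ D.ga k ω = D.ga k ω') ∧
    R.al k ω = R.al k ω' ∧ R.be k ω = R.be k ω' ∧ R.ga k ω = R.ga k ω'

/-- all functions are bounded -/
def bd2 (H : ℕ → ℝ) (k : ℕ) (ω : (l k).T.Ω) : Prop :=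
  (|D.tau k ω| ≤ H k ∧ |D.ph0 k ω| ≤ H k ∧ |D.ph1 k ω| ≤ H k ∧ |D.al k ω| ≤ H k ∧ |D.be k ω| ≤ H k ∧
    |D.ga k ω| ≤ H k) ∧ |R.al k ω| ≤ H k ∧ |R.be k ω| ≤ H k ∧ |R.ga k ω| ≤ H k

/-- the coefficients of the difference of the sheets in the box coordinates -/
def g0 (k : ℕ) (ω : (l k).T.Ω) (y : ℝ) : ℝ :=
  ((D.al k ω - R.al k ω) + (D.be k ω - R.be k ω) * D.tau k ω + (D.ga k ω - R.ga k ω) * D.ph0 k ω +
    S.dl ζ k * y) / S.dl r₂ k

def g1 (k : ℕ) (ω : (l k).T.Ω) (y : ℝ) : ℝ :=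
  ((D.be k ω - R.be k ω) * S.dl c k + (D.ga k ω - R.ga k ω) * D.ph1 k ω * S.dl c k + S.dl ζ k * y) / S.dl r₂ k

def g2 (k : ℕ) (ω : (l k).T.Ω) (y : ℝ) : ℝ :=
  ((D.ga k ω - R.ga k ω) * S.dl (c + u) k + S.dl ζ k * y) / S.dl r₂ k

/-- the bound of all functions is typical -/
theorem bd2_typ (hc0 : 0 ≤ c) (hu0 : 0 ≤ u) (hζ : 0 ≤ ζ) (hr : 0 ≤ r₂) : ∃ H : ℕ → ℝ, S.Sub H ∧
    Typ (S := l.sp) (fun k (ω : (l k).T.Ω) => D.bd2 R H k ω) := by
  obtain ⟨KP, hKP, hP⟩ := s.P.bd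
  obtain ⟨Kt, hKt, ht⟩ := s.t.bd
  set A : ℕ → ℝ := fun k => D.K k + R.K k with hA
  have hAS : S.Sub A := D.hK.add R.hK
  refine ⟨fun k => KP k + A k * Kt k + A k * KP k + A k + (Kt k + A k) + A k * A k, ?_, ?_⟩
  · exact ((((hKP.add (hAS.mul hKt)).add (hAS.mul hKP)).add hAS).add (hKt.add hAS)).add (hAS.mul hAS)
  · have hsup : ∀ k ω, (l k).T.μ ω ≠ 0 → (S.F k).μ ((l k).p.π ω) ≠ 0 := fun k ω h => (l k).p.supp ω h
    refine Typ.mono (S := l.sp) (Typ.and (S := l.sp) D.ty R.ty) ?_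
    filter_upwards [D.hK.1, R.hK.1, hKP.1, hKt.1, hP, ht] with k c1 c2 c3 c4 hP ht ω hω h
    have x0 := ht _ (hsup k ω hω) 0
    have x1 := hP _ (hsup k ω hω) i
    have x2 := hP _ (hsup k ω hω) j
    have y0 : |lt s l k ω| ≤ Kt k := x0
    have y1 : |lP s l i k ω| ≤ KP k := x1
    have y2 : |lP s l j k ω| ≤ KP k := x2
    obtain ⟨⟨⟨t1, t2, t3⟩, ⟨t4, t5, t6⟩, t7, t8, t9⟩, r1, r2, r3⟩ := h
    have dl1 : ∀ x : ℝ, 0 ≤ x → S.dl x k ≤ 1 := fun x hx => by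
      have := S.dl_anti hx k
      rwa [S.dl_zero] at this
    have hAk : 0 ≤ A k := by simp only [hA]; linarith
    have hDA : D.K k ≤ A k := by simp only [hA]; linarith
    have hRA : R.K k ≤ A k := by simp only [hA]; linarith
    have z1 := mul_nonneg hAk c4
    have z2 := mul_nonneg hAk c3
    have z3 := mul_nonneg hAk hAk
    -- products
    have pr : ∀ {x y X Y : ℝ}, |x| ≤ X → |y| ≤ Y → |x * y| ≤ X * Y := by
      intro x y X Y hx hy
      rw [abs_mul]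
      exact mul_le_mul hx hy (abs_nonneg _) ((abs_nonneg _).trans hx)
    have w1 : lt s l k ω - D.tau k ω = S.dl c k * D.q k 0 ω := by
      rw [t1]
      field_simp [(S.dl_pos c k).ne']
    have w2 : lP s l j k ω - D.ph0 k ω - D.ph1 k ω * (lt s l k ω - D.tau k ω) = S.dl (c + u) k * D.q k 1 ω := by
      rw [t2]
      field_simp [(S.dl_pos (c + u) k).ne']
    have w3 : lP s l i k ω - D.al k ω - D.be k ω * lt s l k ω - D.ga k ω * lP s l j k ω = S.dl ζ k * D.z k ω := by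
      rw [t3]
      field_simp [(S.dl_pos ζ k).ne']
    have sm : ∀ {r B : ℝ}, 0 ≤ r → |B| ≤ A k → |S.dl r k * B| ≤ A k := by
      intro r B hr h
      rw [abs_mul, abs_of_pos (S.dl_pos r k)]
      exact (mul_le_of_le_one_left (abs_nonneg B) (dl1 r hr)).trans h
    have v1 : |S.dl c k * D.q k 0 ω| ≤ A k := sm hc0 (t4.trans hDA)
    have v2 : |S.dl (c + u) k * D.q k 1 ω| ≤ A k := sm (add_nonneg hc0 hu0) (t5.trans hDA)
    have v3 : |S.dl ζ k * D.z k ω| ≤ A k := sm hζ (t6.trans hDA)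
    have v4 : |lP s l i k ω - R.al k ω - R.be k ω * lt s l k ω - R.ga k ω * lP s l j k ω| ≤ A k :=
      (r1.trans (mul_le_of_le_one_right c2 (dl1 r₂ hr))).trans hRA
    have v5 := pr (t7.trans hDA) v1
    have v6 := pr (t8.trans hDA) y0
    have v7 := pr (t9.trans hDA) y2
    have v8 := pr (r2.trans hRA) y0
    have v9 := pr (r3.trans hRA) y2
    rw [← w1] at v5 v1
    rw [← w2] at v2
    rw [← w3] at v3
    have u0 := ab2 y0 v1
    have u1 := ab3 y2 v5 v2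
    have u2 := ab4 y1 v6 v7 v3
    have u3 := ab4 y1 v8 v9 v4
    unfold bd2
    refine ⟨⟨?_, ?_, ?_, ?_, ?_, ?_⟩, ?_, ?_, ?_⟩ <;> linarith

open Classical in
/-- the coefficients of the new sheet relative to the reference sheet -/
def nc (H : ℕ → ℝ) (cc : ∀ k, (l k).T.Ω → Mon 2 1 → ℝ) (k : ℕ) (ω : (l k).T.Ω) : Fin 3 → ℝ :=
  if D.gd2 R k ∧ D.bd2 R H k ω then ![D.g0 R k ω (cc k ω (z0 2 1)),
    D.g1 R k ω (cc k ω (m1 0)), D.g2 R k ω (cc k ω (m1 1))] else 0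

/-- the same as a coefficient vector -/
def nm (H : ℕ → ℝ) (cc : ∀ k, (l k).T.Ω → Mon 2 1 → ℝ) (k : ℕ) (ω : (l k).T.Ω) : Mon 2 1 → ℝ :=
  co (D.nc R H cc k ω 0) ![D.nc R H cc k ω 1, D.nc R H cc k ω 2]

theorem nm_0 (H : ℕ → ℝ) (cc : ∀ k, (l k).T.Ω → Mon 2 1 → ℝ) (k : ℕ) (ω : (l k).T.Ω) :
    D.nm R H cc k ω (z0 2 1) = D.nc R H cc k ω 0 := co_z0 _ _

theorem nm_1 (H : ℕ → ℝ) (cc : ∀ k, (l k).T.Ω → Mon 2 1 → ℝ) (k : ℕ) (ω : (l k).T.Ω) :
    D.nm R H cc k ω (m1 0) = D.nc R H cc k ω 1 := co_m1 _ _ _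

theorem nm_2 (H : ℕ → ℝ) (cc : ∀ k, (l k).T.Ω → Mon 2 1 → ℝ) (k : ℕ) (ω : (l k).T.Ω) :
    D.nm R H cc k ω (m1 1) = D.nc R H cc k ω 2 := co_m1 _ _ _

theorem nm_of (H : ℕ → ℝ) (cc : ∀ k, (l k).T.Ω → Mon 2 1 → ℝ) (k : ℕ) (ω : (l k).T.Ω)
    (hgb : D.gd2 R k ∧ D.bd2 R H k ω) : D.nm R H cc k ω (z0 2 1) = D.g0 R k ω (cc k ω (z0 2 1)) ∧
      D.nm R H cc k ω (m1 0) = D.g1 R k ω (cc k ω (m1 0)) ∧
      D.nm R H cc k ω (m1 1) = D.g2 R k ω (cc k ω (m1 1)) := by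
  have en : D.nc R H cc k ω = ![D.g0 R k ω (cc k ω (z0 2 1)), D.g1 R k ω (cc k ω (m1 0)),
    D.g2 R k ω (cc k ω (m1 1))] := if_pos hgb
  rw [nm_0, nm_1, nm_2, en]
  exact ⟨rfl, rfl, rfl⟩

theorem nc_eq (H : ℕ → ℝ) (cc : ∀ k, (l k).T.Ω → Mon 2 1 → ℝ) (k : ℕ) (ω ω' : (l k).T.Ω) (h1 : (l k).T.μ ω ≠ 0)
    (h2 : (l k).T.μ ω' ≠ 0) (hV : (l k).V ω ω') (hZ : (l k).T.Z ω ω') (hc : cc k ω = cc k ω') :
    D.nc R H cc k ω = D.nc R H cc k ω' := by
  unfold nc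
  by_cases hg : D.gd2 R k
  · obtain ⟨⟨d1, d2, d3, d4, d5, d6⟩, d7, d8, d9⟩ := hg ω ω' h1 h2 hV hZ
    have e1 : D.bd2 R H k ω ↔ D.bd2 R H k ω' := by
      unfold bd2
      rw [d1, d2, d3, d4, d5, d6, d7, d8, d9]
    have e2 : (![D.g0 R k ω (cc k ω (z0 2 1)), D.g1 R k ω (cc k ω (m1 0)),
        D.g2 R k ω (cc k ω (m1 1))] : Fin 3 → ℝ) = ![D.g0 R k ω' (cc k ω' (z0 2 1)),
        D.g1 R k ω' (cc k ω' (m1 0)), D.g2 R k ω' (cc k ω' (m1 1))] := by
      unfold g0 g1 g2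
      rw [d1, d2, d3, d4, d5, d6, d7, d8, d9, hc]
    by_cases h : D.bd2 R H k ω
    · rw [if_pos ⟨hg, h⟩, if_pos ⟨hg, e1.mp h⟩, e2]
    · rw [if_neg (fun h' => h h'.2), if_neg (fun h' => h (e1.mpr h'.2))]
  · rw [if_neg (fun h => hg h.1), if_neg (fun h => hg h.1)]

theorem nm_eq (H : ℕ → ℝ) (cc : ∀ k, (l k).T.Ω → Mon 2 1 → ℝ) (k : ℕ) (ω ω' : (l k).T.Ω) (h1 : (l k).T.μ ω ≠ 0)
    (h2 : (l k).T.μ ω' ≠ 0) (hV : (l k).V ω ω') (hZ : (l k).T.Z ω ω') (hc : cc k ω = cc k ω') :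
    D.nm R H cc k ω = D.nm R H cc k ω' := by
  unfold nm
  rw [D.nc_eq R H cc k ω ω' h1 h2 hV hZ hc]

/-- the new coefficients are known -/
theorem nm_nul (H : ℕ → ℝ) (cc : ∀ k, (l k).T.Ω → Mon 2 1 → ℝ) (E : ∀ k, (l k).T.Ω → Prop)
    (hn : Nul S (fun k => h (fc (Setoid.ker (cc k)) : FL ((l k).T.rest (E k))) ((l k).T.rmap (E k) (l k).v))) :
    Nul S (fun k => h (fc (Setoid.ker (D.nm R H cc k)) : FL ((l k).T.rest (E k))) ((l k).T.rmap (E k) (l k).v)) := by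
  refine hn.of_le (Eventually.of_forall fun k => h_nonneg _ _) (Eventually.of_forall fun k => ?_)
  have e1 : (l k).T.rmap (E k) (l k).v = (fc (l k).V : FL ((l k).T.rest (E k))) := rfl
  have e2 : (fc (Setoid.ker (D.nm R H cc k)) : FL ((l k).T.rest (E k))) ≤
      (fc (Setoid.ker (cc k)) : FL ((l k).T.rest (E k))) ⊔ (fc (l k).V : FL ((l k).T.rest (E k))) :=
    fc_le (F := (l k).T.rest (E k)) (A := Setoid.ker (D.nm R H cc k)) (B := Setoid.ker (cc k) ⊓ (l k).V)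
      fun ω ω' a b z v => D.nm_eq R H cc k ω ω' ((l k).T.rest_supp (E k) ω a).1 ((l k).T.rest_supp (E k) ω' b).1
        v.2 z v.1
  rw [e1]
  refine (h_mono e2).trans (le_of_eq ?_)
  exact h_sup_right_of_le le_rfl

/-- bound of the new coefficients -/
theorem nm_bd (hc0 : 0 ≤ c) (hu0 : 0 ≤ u) (hζ : 0 ≤ ζ) {H : ℕ → ℝ} (hH : S.Sub H)
    {cc : ∀ k, (l k).T.Ω → Mon 2 1 → ℝ} {L : ℕ → ℝ} (hcc : ∀ᶠ k in UF, ∀ ω a, |cc k ω a| ≤ L k) :
    ∀ᶠ k in UF, ∀ ω a, |D.nm R H cc k ω a| ≤ (2 * H k + 4 * (H k * H k) + |L k|) * (S.dl r₂ k)⁻¹ := by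
  filter_upwards [hH.1, hcc] with k hH0 hL
  intro ω
  have hd := S.dl_pos r₂ k
  have hd' := inv_pos.mpr hd
  have dl1 : ∀ x : ℝ, 0 ≤ x → S.dl x k ≤ 1 := fun x hx => by
    have := S.dl_anti hx k
    rwa [S.dl_zero] at this
  have hHH := mul_nonneg hH0 hH0
  have hB : 0 ≤ (2 * H k + 4 * (H k * H k) + |L k|) * (S.dl r₂ k)⁻¹ := by
    have := abs_nonneg (L k)
    positivity
  have hLL : ∀ a, |cc k ω a| ≤ |L k| := fun a => (hL ω a).trans (le_abs_self _)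
  have sm : ∀ {r B C : ℝ}, 0 ≤ r → |B| ≤ C → |S.dl r k * B| ≤ C := by
    intro r B C hr h
    rw [abs_mul, abs_of_pos (S.dl_pos r k)]
    exact (mul_le_of_le_one_left (abs_nonneg B) (dl1 r hr)).trans h
  have sm' : ∀ {r B C : ℝ}, 0 ≤ r → |B| ≤ C → |B * S.dl r k| ≤ C := by
    intro r B C hr h
    rw [mul_comm]
    exact sm hr h
  have sb : ∀ {x y : ℝ}, |x| ≤ H k → |y| ≤ H k → |x - y| ≤ 2 * H k := by
    intro x y hx hy
    rw [abs_le] at hx hy ⊢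
    constructor <;> linarith [hx.1, hx.2, hy.1, hy.2]
  have pr : ∀ {x y X Y : ℝ}, |x| ≤ X → |y| ≤ Y → |x * y| ≤ X * Y := by
    intro x y X Y hx hy
    rw [abs_mul]
    exact mul_le_mul hx hy (abs_nonneg _) ((abs_nonneg _).trans hx)
  have key : ∀ b : Fin 3, |D.nc R H cc k ω b| ≤ (2 * H k + 4 * (H k * H k) + |L k|) * (S.dl r₂ k)⁻¹ := by
    intro b
    unfold nc
    split_ifs with h
    · obtain ⟨-, ⟨b1, b2, b3, b4, b5, b6⟩, b7, b8, b9⟩ := h
      have q1 := sb b4 b7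
      have q2 := pr (sb b5 b8) b1
      have q3 := pr (sb b6 b9) b2
      have q4 := sm hζ (hLL (z0 2 1))
      have q5 := sm' hc0 (sb b5 b8)
      have q6 := sm' hc0 (pr (sb b6 b9) b3)
      have q7 := sm hζ (hLL (m1 0))
      have q8 := sm' (add_nonneg hc0 hu0) (sb b6 b9)
      have q9 := sm hζ (hLL (m1 1))
      fin_cases b
      · show |D.g0 R k ω (cc k ω (z0 2 1))| ≤ _
        unfold g0
        rw [div_eq_mul_inv, abs_mul, abs_of_pos hd']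
        apply mul_le_mul_of_nonneg_right _ hd'.le
        have p1 := abs_add_le (D.al k ω - R.al k ω + (D.be k ω - R.be k ω) * D.tau k ω +
          (D.ga k ω - R.ga k ω) * D.ph0 k ω) (S.dl ζ k * cc k ω (z0 2 1))
        have p2 := abs_add_le (D.al k ω - R.al k ω + (D.be k ω - R.be k ω) * D.tau k ω)
          ((D.ga k ω - R.ga k ω) * D.ph0 k ω)
        have p3 := abs_add_le (D.al k ω - R.al k ω) ((D.be k ω - R.be k ω) * D.tau k ω)
        linarith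
      · show |D.g1 R k ω (cc k ω (m1 0))| ≤ _
        unfold g1
        rw [div_eq_mul_inv, abs_mul, abs_of_pos hd']
        apply mul_le_mul_of_nonneg_right _ hd'.le
        have p1 := abs_add_le ((D.be k ω - R.be k ω) * S.dl c k + (D.ga k ω - R.ga k ω) * D.ph1 k ω * S.dl c k)
          (S.dl ζ k * cc k ω (m1 0))
        have p2 := abs_add_le ((D.be k ω - R.be k ω) * S.dl c k) ((D.ga k ω - R.ga k ω) * D.ph1 k ω * S.dl c k)
        linarith
      · show |D.g2 R k ω (cc k ω (m1 1))| ≤ _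
        unfold g2
        rw [div_eq_mul_inv, abs_mul, abs_of_pos hd']
        apply mul_le_mul_of_nonneg_right _ hd'.le
        have p1 := abs_add_le ((D.ga k ω - R.ga k ω) * S.dl (c + u) k) (S.dl ζ k * cc k ω (m1 1))
        linarith
    · rw [Pi.zero_apply, abs_zero]
      exact hB
  intro a
  rcases mon_cases a with h | ⟨b, h⟩
  · rw [h, nm_0]
    exact key 0
  · rw [h]
    rcases Fin.exists_fin_two.mp ⟨b, rfl⟩ with h2 | h2
    · rw [h2, nm_1]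
      exact key 1
    · rw [h2, nm_2]
      exact key 2

end BkD

/-- ST2_BACK with a second reference sheet -/
theorem st2_back2 {s : Sys S m} {l : Lab S} {i j : Fin m} {c u ζ r₂ : ℝ} (hl : IsKap s c l) (hc0 : 0 ≤ c)
    (hu0 : 0 ≤ u) (hζ : 0 ≤ ζ) (hcr : c + u ≤ r₂) (D : BkD s l i j c u ζ) (R : RfD s l i j r₂)
    (Zb : ∀ k, Setoid (l k).T.Ω) (e : ℝ) (he : 0 < e)
    (hZ : ∀ᶠ k in UF, ∀ ω ω', (l k).T.μ ω ≠ 0 → (l k).T.μ ω' ≠ 0 → (l k).V ω ω' → (l k).T.Z ω ω' → (Zb k) ω ω')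
    (PB PX : ∀ k, Setoid (l k).T.Ω)
    (hPX : Nul S (fun k => h (fc (PX k) : FL (l k).T) ((l k).v ⊔ (l k).p.map (cA s c k))))
    (hPB : Nul S (fun k => h (fc (PB k) : FL (l k).T) ((l k).v ⊔ (l k).p.map (cB s k))))
    {del ε : ℝ} (hd0 : 0 ≤ del) (hd1 : del ≤ 1) (hε : ε < 1)
    (hf : ∀ᶠ k in UF, LfF (((l k).T).chg (Zb k) e he) 1 (D.q k) (D.z k) (PB k) (PX k)
      (2 ^ (del * e * (S.F k).n)) (S.dl ((1 - del) * e) k) ε)
    (hfull : Slow.RobGe (S := l.ovr 1 one_pos) (up1 l s.T ⊔ up1 l (TR.dg (TR.cor s.P j) 1)) ⊥ (2 - 2 * c - u)) :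
    ∃ (E : ∀ k, (l k).T.Ω → Prop) (hE : 0 < ul (l.sp.pr E)), 1 - ε ≤ ul (l.sp.pr E) ∧
      HH (SJ i {0, j.succ}) (s.im l.pj E hE) c (min 1 (ζ + (1 - del) * e)) := by
  have hρ : ∀ k, 0 < S.dl ((1 - del) * e) k := fun k => S.dl_pos _ k
  have hρ1 : ∀ k, S.dl ((1 - del) * e) k ≤ 1 := fun k => by
    have h1 := S.dl_anti (show 0 ≤ (1 - del) * e from mul_nonneg (by linarith) he.le) k
    rwa [S.dl_zero] at h1
  obtain ⟨E, cc, hE1, hcc, hz0, hn, hmax⟩ := exact_leaf hl (cA_Bd s c) (fun E => cA_im_Bd s c l.pj E) Zb e he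
    D.q D.z PB PX _ _ hρ hε hZ hPX hPB hf
  have hE : 0 < ul (l.sp.pr E) := by linarith
  refine ⟨E, hE, hE1, ?_⟩
  have hde : 0 ≤ (1 - del) * e := mul_nonneg (by linarith) he.le
  have hσ0 : 0 ≤ min 1 (ζ + (1 - del) * e) := le_min zero_le_one (by linarith)
  have hdm : ((l.im E).addW fun k => Setoid.ker (cc k)).DM (pA (s.im l.pj E hE) c) (pB (s.im l.pj E hE)) := hmax.1
  have hr0 : 0 ≤ r₂ := by linarith
  set D' := D.rf R with hD'
  have t3 := Pool.Agent.Helper25.EC.rest_mem (W := l.sp) E hE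
  by_cases hA : min 1 (ζ + (1 - del) * e) ≤ r₂
  · -- the reference sheet itself
    obtain ⟨v, hv⟩ := D'.sht hE (fun k => Setoid.ker (cc k)) (by linarith) hcr (fun _ _ => 0)
      (fun _ _ => 0) (fun _ _ => 0) (fun k ω ω' _ _ _ _ _ => ⟨rfl, rfl, rfl⟩) (fun _ => 0) (S.Sub_const le_rfl)
      D'.K D'.hK (fun _ => 1) (σ := min 1 (ζ + (1 - del) * e)) (fun k => by
        rw [mul_one]
        exact S.dl_anti hA k)
      (by
        refine Typ.mono (S := l.sp.rest E) (Typ_true (S := l.sp.rest E)) (Eventually.of_forall fun k ω _ _ => ?_)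
        rw [abs_zero]
        exact ⟨le_rfl, le_rfl⟩)
      (by
        have ty := Pool.Agent.Helper25.EC.typ_rest (W := l.sp) E hE D'.ty
        refine Typ.mono (S := l.sp.rest E) ty (Eventually.of_forall fun k ω _ h => ?_)
        obtain ⟨-, ⟨-, -, q2⟩, -⟩ := h
        show |D'.z k ω - (0 + 0 * D'.q k 0 ω + 0 * D'.q k 1 ω)| ≤ D'.K k * 1
        rw [zero_mul, zero_mul, add_zero, add_zero, sub_zero, mul_one]
        exact q2)
    exact HH_of_Sht hσ0 (min_le_left _ _) hdm hv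
  · push Not at hA
    have hr1 : r₂ < 1 := lt_of_lt_of_le hA (min_le_left _ _)
    have hr2 : r₂ ≤ ζ + (1 - del) * e := (hA.trans_le (min_le_right _ _)).le
    have hcu1 : c + u < 1 := by linarith
    obtain ⟨H, hH, hHt⟩ := D.bd2_typ R hc0 hu0 hζ hr0
    set Q : ∀ k, (l k).T.Ω → Prop := fun k ω => (D.gd2 R k ∧ D.bd2 R H k ω) ∧
      TyP s l i j c u ζ D.tau D.ph0 D.ph1 D.al D.be D.ga D.q D.z D.K k ω with hQd
    have hgd : ∀ᶠ k in UF, D.gd2 R k := by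
      filter_upwards [D.hm, R.hm] with k h1 h2 ω ω' a b v z
      exact ⟨h1 ω ω' a b v z, h2 ω ω' a b v z⟩
    have hQ : Typ (S := l.sp) Q := by
      refine Typ.mono (S := l.sp) (Typ.and (S := l.sp) hHt D.ty) ?_
      filter_upwards [hgd] with k hk ω _ h
      exact ⟨⟨hk, h.1⟩, h.2⟩
    -- the error relative to the reference sheet
    have hz : ∀ k ω, E k ω → Q k ω → |D'.z k ω - (D.nm R H cc k ω (z0 2 1) + D.nm R H cc k ω (m1 0) * D'.q k 0 ω +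
        D.nm R H cc k ω (m1 1) * D'.q k 1 ω)| ≤
        (2 + |D.q k 0 ω| + |D.q k 1 ω|) * (S.dl (ζ + (1 - del) * e) k / S.dl r₂ k) := by
      intro k (ω : (l k).T.Ω) hω hq
      obtain ⟨hgb, ⟨t1, t2, t4⟩, -⟩ := hq
      have h1 := hz0 k ω hω
      have e1 : ∑ a : Mon 2 1, cc k ω a * ∏ i, D.q k i ω ^ (a.1 i : ℕ) =
        cc k ω (z0 2 1) + cc k ω (m1 0) * D.q k 0 ω + cc k ω (m1 1) * D.q k 1 ω := sum_two (cc k ω) (fun i => D.q k i ω)
      have e2 : ∑ a : Mon 2 1, |∏ i, D.q k i ω ^ (a.1 i : ℕ)| = 1 + |D.q k 0 ω| + |D.q k 1 ω| :=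
        sum_two_abs (fun i => D.q k i ω)
      rw [e1, e2] at h1
      obtain ⟨en0, en1, en2⟩ := D.nm_of R H cc k ω hgb
      have hdr := S.dl_pos r₂ k
      have hdz := S.dl_pos ζ k
      have hdc := S.dl_pos c k
      have hdu := S.dl_pos (c + u) k
      have w0 : S.dl c k * D.q k 0 ω = lt s l k ω - D.tau k ω := by
        rw [t1, mul_div_cancel₀ _ hdc.ne']
      have w1 : S.dl (c + u) k * D.q k 1 ω = lP s l j k ω - D.ph0 k ω - D.ph1 k ω * (lt s l k ω - D.tau k ω) := by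
        rw [t2, mul_div_cancel₀ _ hdu.ne']
      have w2 : S.dl ζ k * D.z k ω = lP s l i k ω - D.al k ω - D.be k ω * lt s l k ω - D.ga k ω * lP s l j k ω := by
        rw [t4, mul_div_cancel₀ _ hdz.ne']
      have w3 : S.dl r₂ k * D'.z k ω =
          lP s l i k ω - R.al k ω - R.be k ω * lt s l k ω - R.ga k ω * lP s l j k ω :=
        mul_div_cancel₀ _ hdr.ne'
      have key := alg_ref (a0 := cc k ω (z0 2 1)) (a1 := cc k ω (m1 0)) (a2 := cc k ω (m1 1)) hdr.ne' w0 w1 w2 w3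
      have key2 : D'.z k ω - (D.nm R H cc k ω (z0 2 1) + D.nm R H cc k ω (m1 0) * D'.q k 0 ω +
          D.nm R H cc k ω (m1 1) * D'.q k 1 ω) = (S.dl ζ k / S.dl r₂ k) *
          (D.z k ω - (cc k ω (z0 2 1) + cc k ω (m1 0) * D.q k 0 ω + cc k ω (m1 1) * D.q k 1 ω)) := by
        rw [en0, en1, en2]
        exact key
      rw [key2, abs_mul, abs_of_pos (div_pos hdz hdr), S.dl_add]
      have h5 := mul_le_mul_of_nonneg_left h1 (div_pos hdz hdr).le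
      refine h5.trans (le_of_eq ?_)
      ring
    have hz1 : ∀ k ω, E k ω → Q k ω → |D'.z k ω - (D.nm R H cc k ω (z0 2 1) + D.nm R H cc k ω (m1 0) * D'.q k 0 ω +
        D.nm R H cc k ω (m1 1) * D'.q k 1 ω)| ≤ 2 + |D'.q k 0 ω| + |D'.q k 1 ω| := by
      intro k ω hω hq
      have h1 := abs_nonneg (D.q k 0 ω)
      have h2 := abs_nonneg (D.q k 1 ω)
      refine (hz k ω hω hq).trans ?_
      apply mul_le_of_le_one_right (by linarith)
      rw [div_le_one (S.dl_pos _ k)]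
      exact S.dl_anti hr2 k
    have hcc' := D.nm_bd R hc0 hu0 hζ hH hcc
    have hL : ∀ᶠ k in UF, 2 * ((2 * H k + 4 * (H k * H k) + |2 ^ (del * e * (S.F k).n) + S.dl ((1 - del) * e) k|) *
        (S.dl r₂ k)⁻¹ + 1) + 1 ≤ (2 : ℝ) ^ ((del * e + r₂ + 5) * (S.F k).n) := by
      have hHs : S.Sub (fun k => 2 * H k + 4 * (H k * H k)) :=
        ((S.Sub_const (by norm_num : (0 : ℝ) ≤ 2)).mul hH).add
          ((S.Sub_const (by norm_num : (0 : ℝ) ≤ 4)).mul (hH.mul hH))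
      filter_upwards [S.lim.eventually_ge_atTop 1, hHs.eventually_le one_pos] with k hk hk2
      have h0 : (1 : ℝ) ≤ 2 ^ (del * e * (S.F k).n) :=
        Real.one_le_rpow (by norm_num) (mul_nonneg (mul_nonneg hd0 he.le) (S.F k).pos.le)
      have h8 : (8 : ℝ) ≤ 2 ^ (3 * (S.F k).n) := by
        have h3 : (2 : ℝ) ^ (3 : ℝ) ≤ 2 ^ (3 * (S.F k).n) :=
          Real.rpow_le_rpow_of_exponent_le (by norm_num) (by linarith)
        have h4 : (2 : ℝ) ^ (3 : ℝ) = 8 := by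
          rw [show (3 : ℝ) = ((3 : ℕ) : ℝ) by norm_num, Real.rpow_natCast]
          norm_num
        linarith
      have hN : (1 : ℝ) ≤ 2 ^ (1 * (S.F k).n) := Real.one_le_rpow (by norm_num) (by linarith)
      have hN2 : (2 : ℝ) ≤ 2 ^ (1 * (S.F k).n) := by
        have h3 : (2 : ℝ) ^ (1 : ℝ) ≤ 2 ^ (1 * (S.F k).n) :=
          Real.rpow_le_rpow_of_exponent_le (by norm_num) (by linarith)
        rwa [Real.rpow_one] at h3
      have hdr : (S.dl r₂ k)⁻¹ = 2 ^ (r₂ * (S.F k).n) := by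
        unfold Sp.dl
        rw [Real.rpow_neg (by norm_num), inv_inv]
      have hr3 : (1 : ℝ) ≤ 2 ^ (r₂ * (S.F k).n) :=
        Real.one_le_rpow (by norm_num) (mul_nonneg hr0 (S.F k).pos.le)
      have hab : |2 ^ (del * e * (S.F k).n) + S.dl ((1 - del) * e) k| =
          2 ^ (del * e * (S.F k).n) + S.dl ((1 - del) * e) k := abs_of_pos (by linarith [hρ k])
      rw [hdr, hab]
      have e1 : (2 : ℝ) ^ ((del * e + r₂ + 5) * (S.F k).n) = 2 ^ (del * e * (S.F k).n) * 2 ^ (r₂ * (S.F k).n) *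
          (2 ^ (1 * (S.F k).n) * 2 ^ (1 * (S.F k).n)) * 2 ^ (3 * (S.F k).n) := by
        rw [← Real.rpow_add (by norm_num), ← Real.rpow_add (by norm_num), ← Real.rpow_add (by norm_num),
          ← Real.rpow_add (by norm_num)]
        congr 1
        ring
      rw [e1]
      set X : ℝ := 2 ^ (del * e * (S.F k).n) with hX
      set Y : ℝ := 2 ^ (r₂ * (S.F k).n) with hY
      set N1 : ℝ := 2 ^ (1 * (S.F k).n) with hN1
      set M8 : ℝ := 2 ^ (3 * (S.F k).n) with hM8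
      have h9 := hρ1 k
      -- the bracket
      have b1 : 2 * H k + 4 * (H k * H k) + (X + S.dl ((1 - del) * e) k) ≤ 3 * (X * N1) := by nlinarith
      have b2 : (2 * H k + 4 * (H k * H k) + (X + S.dl ((1 - del) * e) k)) * Y ≤ 3 * (X * N1) * Y :=
        mul_le_mul_of_nonneg_right b1 (by linarith)
      have b3 : 1 ≤ X * N1 := one_le_mul_of_one_le_of_one_le h0 hN
      have b4 : 1 ≤ X * N1 * Y := one_le_mul_of_one_le_of_one_le b3 hr3
      have b5 : 2 * ((2 * H k + 4 * (H k * H k) + (X + S.dl ((1 - del) * e) k)) * Y + 1) + 1 ≤ 9 * (X * N1 * Y) := by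
        linarith
      have b6 : X * Y * (N1 * N1) * M8 = (X * N1 * Y) * (N1 * M8) := by ring
      rw [b6]
      refine b5.trans ?_
      rw [mul_comm 9]
      apply mul_le_mul_of_nonneg_left _ (by linarith)
      nlinarith
    have hn' := D.nm_nul R H cc E hn
    have ht : ∀ δ : ℝ, 0 < δ → Typ (S := l.sp.rest E) (fun k (ω : (l k).T.Ω) =>
        max |D.nm R H cc k ω (m1 0)| |D.nm R H cc k ω (m1 1)| ≤ 2 ^ (δ * ((l.sp.rest E).F k).n)) := by
      intro δ hδ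
      have t1 := D'.tame hc0 hu0 (δ := min δ (1 - (c + u))) (lt_min hδ (by linarith))
        (by linarith [min_le_right δ (1 - (c + u))]) hfull E (D.nm R H cc) _ _ hL hcc' hn' Q hQ hz1
      have t2 := Pool.Agent.Helper25.EC.typ_rest (W := l.sp) E hE t1
      refine Typ.mono (S := l.sp.rest E) t2 ?_
      filter_upwards [t3] with k hk ω hω h
      obtain ⟨g1, g2⟩ := h (hk ω hω).2
      have g3 : (2 : ℝ) ^ (min δ (1 - (c + u)) * (S.F k).n) ≤ 2 ^ (δ * ((l.sp.rest E).F k).n) := by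
        have g4 : ((l.sp.rest E).F k).n = (S.F k).n := (l k).hn
        rw [g4]
        exact Real.rpow_le_rpow_of_exponent_le (by norm_num)
          (mul_le_mul_of_nonneg_right (min_le_left _ _) (S.F k).pos.le)
      exact max_le (g1.trans g3) (g2.trans g3)
    obtain ⟨K1, hK1, hT1⟩ := typ_sub_le (S := l.sp.rest E) _ ht
    have hK1' : S.Sub K1 := by
      refine ⟨hK1.1, ?_⟩
      refine hK1.2.congr fun k => ?_
      have g4 : ((l.sp.rest E).F k).n = (S.F k).n := (l k).hn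
      rw [g4]
    obtain ⟨v, hv⟩ := D'.sht hE (fun k => Setoid.ker (cc k)) (by linarith) hcr
      (fun k ω => D.nm R H cc k ω (z0 2 1)) (fun k ω => D.nm R H cc k ω (m1 0)) (fun k ω => D.nm R H cc k ω (m1 1))
      (fun k ω ω' a b v z h => by
        have h' : cc k ω = cc k ω' := h
        have h2 := D.nm_eq R H cc k ω ω' a b v z h'
        exact ⟨by rw [h2], by rw [h2], by rw [h2]⟩) K1 hK1' (fun k => 2 + D.K k + D.K k)
      (((S.Sub_const (by norm_num : (0 : ℝ) ≤ 2)).add D.hK).add D.hK)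
      (fun k => S.dl (ζ + (1 - del) * e) k / S.dl r₂ k)
      (σ := min 1 (ζ + (1 - del) * e)) (fun k => by
        rw [mul_div_cancel₀ _ (S.dl_pos _ k).ne']
        exact S.dl_anti (min_le_right _ _) k)
      (Typ.mono (S := l.sp.rest E) hT1 (Eventually.of_forall fun k ω _ h => ⟨(le_max_left _ _).trans h,
        (le_max_right _ _).trans h⟩))
      (by
        have ty := Pool.Agent.Helper25.EC.typ_rest (W := l.sp) E hE hQ
        refine Typ.mono (S := l.sp.rest E) ty ?_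
        filter_upwards [t3] with k hk ω hω h
        refine (hz k ω (hk ω hω).2 h).trans ?_
        obtain ⟨-, -, ⟨q0, q1, -⟩, -⟩ := h
        exact mul_le_mul_of_nonneg_right (by linarith) (div_pos (S.dl_pos _ k) (S.dl_pos _ k)).le)
    exact HH_of_Sht hσ0 (min_le_left _ _) hdm hv

end

end Pool.Agent.Helper52.BK
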